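import Pool.Agent.L5helper97.DL.Topo
import Pool.Agent.H984R4.NP.Arms
import Pool.Agent.H974R2.RSW2

/-!
Walls and the confinement of the exploration path in a rectangle.
-/

set_option autoImplicit false

namespace Pool.Agent.L5helper97.DL

open H974 Finset H342P H984P H984N

/-- an open left-right crossing excludes a dual top-bottom crossing -/
theorem noLR {C G : Set Edg} (hG : ∀ e ∈ G, dl.symm e ∉ C) {a b c d : ℤ} (hcd : c ≤ d)
    {y y' x x' : ℤ} (hy' : c ≤ y' ∧ y' ≤ d) (hx : a ≤ x ∧ x < b)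
    (h1 : Reach (C ∩ ↑(LRE a b c d)) (a, y) (b, y'))
    (h2 : Reach (G ∩ ↑(TBE a (b - 1) (c - 1) d)) (x, c - 1) (x', d)) : False := by
  refine no_both hcd hy' hx h1 (reach_dl.1 (h2.mono ?_))
  rintro e ⟨he1, he2⟩
  refine ⟨dl.symm e, ⟨hG e he1, ?_⟩, by simp⟩
  obtain ⟨x, y, _ | _⟩ := e
  · rw [dls_f]
    simp only [mem_coe, mem_TBE_false, mem_LRE_true] at he2 ⊢
    omega
  · rw [dls_t]
    simp only [mem_coe, mem_TBE_true, mem_LRE_false] at he2 ⊢
    omega

/-- an open top-bottom crossing excludes a dual left-right crossing -/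
theorem noTB {C G : Set Edg} (hG : ∀ e ∈ G, dl.symm e ∉ C) {a b c d : ℤ} (hab : a ≤ b)
    {y y' x x' : ℤ} (hx' : a ≤ x' ∧ x' ≤ b) (hy : c ≤ y ∧ y < d)
    (h1 : Reach (C ∩ ↑(TBE a b c d)) (x, c) (x', d))
    (h2 : Reach (G ∩ ↑(LRE (a - 1) b c (d - 1))) (a - 1, y) (b, y')) : False := by
  refine no_both_TB hab hx' hy h1 (reach_dl.1 (h2.mono ?_))
  rintro e ⟨he1, he2⟩
  refine ⟨dl.symm e, ⟨hG e he1, ?_⟩, by simp⟩
  obtain ⟨x, y, _ | _⟩ := e
  · rw [dls_f]
    simp only [mem_coe, mem_LRE_false, mem_TBE_true] at he2 ⊢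
    omega
  · rw [dls_t]
    simp only [mem_coe, mem_LRE_true, mem_TBE_false] at he2 ⊢
    omega

/-- the dual graph -/
def GD (D : Dm) (F : Finset Edg) : Set Edg := dl '' (↑D.edges \ D.cfg F)

theorem mem_GD {D : Dm} {F : Finset Edg} {e : Edg} :
    e ∈ GD D F ↔ dl.symm e ∈ D.edges ∧ dl.symm e ∉ D.cfg F := by
  unfold GD
  constructor
  · rintro ⟨e', ⟨h1, h2⟩, rfl⟩
    simpa using ⟨h1, h2⟩
  · rintro ⟨h1, h2⟩
    exact ⟨dl.symm e, ⟨h1, h2⟩, by simp⟩

theorem GD_cfg {D : Dm} {F : Finset Edg} : ∀ e ∈ GD D F, dl.symm e ∉ D.cfg F := fun _ he =>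
  (mem_GD.1 he).2

theorem GD_t {D : Dm} {F : Finset Edg} {x y : ℤ} (h : ((x, y, true) : Edg) ∈ GD D F) :
    D.l ≤ x + 1 ∧ x + 1 ≤ D.r ∧ 0 ≤ y ∧ y < D.h := by
  have h1 := (mem_GD.1 h).1
  rw [dls_t] at h1
  unfold Dm.edges at h1
  rw [mem_RE_false] at h1
  exact ⟨h1.1, h1.2.1, h1.2.2.1, h1.2.2.2⟩

theorem GD_f {D : Dm} {F : Finset Edg} {x y : ℤ} (h : ((x, y, false) : Edg) ∈ GD D F) :
    (D.l ≤ x ∧ x < D.r ∧ 0 ≤ y + 1 ∧ y + 1 ≤ D.h) ∧ (y + 1 = D.h → D.t ≤ x) ∧
      (y + 1 = 0 → 0 ≤ x) := by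
  obtain ⟨h1, h2⟩ := mem_GD.1 h
  rw [dls_f] at h1 h2
  unfold Dm.edges at h1
  rw [mem_RE_true] at h1
  refine ⟨h1, fun h3 => ?_, fun h3 => ?_⟩
  · by_contra hcon
    exact h2 (Or.inr (Or.inl ⟨rfl, h3, h1.1, by omega⟩))
  · by_contra hcon
    exact h2 (Or.inr (Or.inr (Or.inr ⟨rfl, h3, h1.1, by omega⟩)))

/-- the edges of the configuration -/
theorem cfg_b {D : Dm} (hD : D.Ok) {F : Finset Edg} (hF : F ⊆ D.edges) {e : Edg}
    (he : e ∈ D.cfg F) : 0 ≤ (src e).2 ∧ (tgt e).2 ≤ D.h := by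
  obtain ⟨h1, h2, h3, h4, h5⟩ := hD
  obtain ⟨x, y, _ | _⟩ := e
  · rcases he with he | he
    · have := hF he
      unfold Dm.edges at this
      rw [mem_RE_false] at this
      simp only [src_mk, tgt_false]
      omega
    · unfold Dm.wir at he
      simp only [Set.mem_ofPred_eq, Bool.false_eq_true, false_and, false_or, or_false,
        true_and] at he
      simp only [src_mk, tgt_false]
      omega
  · rcases he with he | he
    · have := hF he
      unfold Dm.edges at this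
      rw [mem_RE_true] at this
      simp only [src_mk, tgt_true]
      omega
    · unfold Dm.wir at he
      simp only [Set.mem_ofPred_eq, Bool.true_eq_false, false_and, false_or,
        true_and] at he
      simp only [src_mk, tgt_true]
      omega

theorem cfg_t {D : Dm} {F : Finset Edg} (hF : F ⊆ D.edges) {x y : ℤ}
    (he : ((x, y, true) : Edg) ∈ D.cfg F) (hD : D.Ok) : 0 ≤ y ∧ y ≤ D.h := by
  have := cfg_b hD hF he
  simpa using this

theorem cfg_f {D : Dm} {F : Finset Edg} (hF : F ⊆ D.edges) {x y : ℤ}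
    (he : ((x, y, false) : Edg) ∈ D.cfg F) (hD : D.Ok) : 0 ≤ y ∧ y + 1 ≤ D.h := by
  have := cfg_b hD hF he
  simpa using this

/-- the faces on the way -/
theorem vis_face {D : Dm} (hD : D.Ok) {F : Finset Edg} (hF : F ⊆ D.edges) {σ : St}
    (hv : D.Vis F σ) : ∃ g ∈ D.outer, Reach (GD D F) (face σ) g := by
  obtain ⟨k, hk, rfl⟩ := hv
  obtain ⟨-, g, hg, hr⟩ := walk_clu hD hF hk
  exact ⟨g, hg, reach_dl.2 hr.symm⟩

theorem vis_vtx {D : Dm} (hD : D.Ok) {F : Finset Edg} (hF : F ⊆ D.edges) {σ : St}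
    (hv : D.Vis F σ) : Reach (D.cfg F) σ.1 (0, 0) := by
  obtain ⟨k, hk, rfl⟩ := hv
  obtain ⟨h, -⟩ := walk_clu hD hF hk
  exact (show Reach (D.cfg F) (0, 0) _ from h).symm

/-- straight wall on the left -/
theorem left0 {D : Dm} (hD : D.Ok) {F : Finset Edg} (hF : F ⊆ D.edges) {a b : ℤ} (hab : a < b)
    (hb : b ≤ D.t) (hb0 : b ≤ 0) (hW : TBc a b 0 D.h F) {σ : St} (hv : D.Vis F σ) :
    a ≤ σ.1.1 := by
  by_contra hcon
  push Not at hcon
  obtain ⟨g, hg, hr⟩ := vis_face hD hF hv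
  have hf := arms_face σ
  have hgb : b ≤ g.1 := by
    have := hD.le_r
    rcases hg with hg | hg | hg <;> omega
  obtain ⟨y, y', g1, g2, g3, -⟩ := sub_LR (a := a - 1) (b := b) (c := 0) (d := D.h - 1)
    (by omega) (fun x y h' _ _ => by have := GD_t h'; omega)
    (fun x y h' _ _ => by have := GD_f h'; omega) hr (by omega) hgb
  obtain ⟨x, x', h3, h4, h5⟩ := hW
  exact noTB GD_cfg (by omega) h4 (by omega)
    (h5.mono (Set.inter_subset_inter_left _ Set.subset_union_left)) g3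

/-- straight wall on the right -/
theorem right0 {D : Dm} (hD : D.Ok) {F : Finset Edg} (hF : F ⊆ D.edges) {a b : ℤ} (hab : a ≤ b)
    (ha : D.t ≤ a) (ha0 : 0 ≤ a) (hW : TBc a b (-1) D.h (dmp (D.edges \ F))) {σ : St}
    (hv : D.Vis F σ) : σ.1.1 ≤ b := by
  by_contra hcon
  push Not at hcon
  have hr := vis_vtx hD hF hv
  obtain ⟨y, y', g1, g2, g3, -⟩ := sub_LR (a := a) (b := b + 1) (c := 0) (d := D.h)
    (by omega) (fun x y h' _ _ => by have := cfg_t hF h' hD; omega)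
    (fun x y h' _ _ => by have := cfg_f hF h' hD; omega) hr.symm (by simp only; omega) (by omega)
  obtain ⟨x, x', h3, h4, h5⟩ := hW
  have h6 : Reach (GD D F ∩ ↑(TBE a b (-1) D.h)) (x, -1) (x', D.h) := by
    refine h5.mono ?_
    rintro e ⟨he1, he2⟩
    refine ⟨?_, he2⟩
    rw [mem_coe, mem_dmp, mem_sdiff] at he1
    rw [mem_GD]
    refine ⟨he1.1, ?_⟩
    rintro (h7 | h7)
    · exact he1.2 h7
    · have hl := hD.l_neg
      obtain ⟨x, y, _ | _⟩ := e
      · rw [dls_f] at h7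
        simp only [mem_coe, mem_TBE_false] at he2
        rcases h7 with h7 | h7 | h7
        · simp only at h7; omega
        · simp at h7
        · simp only at h7; omega
      · rw [dls_t] at h7
        simp only [mem_coe, mem_TBE_true] at he2
        rcases h7 with h7 | h7 | h7
        · simp at h7
        · simp only at h7; omega
        · simp at h7
  refine noLR (C := D.cfg F) (G := GD D F) GD_cfg (a := a) (b := b + 1) (c := 0) (d := D.h)
    hD.h_pos.le g2 (x := x) (x' := x') (by omega) g3 ?_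
  rw [show b + 1 - 1 = b by ring, show (0 : ℤ) - 1 = -1 by ring]
  exact h6

/-- bent wall on the left -/
theorem left1 {D : Dm} (hD : D.Ok) {F : Finset Edg} (hF : F ⊆ D.edges) {b : ℤ} (hb : 1 ≤ b)
    (ht : b + 1 ≤ D.t)
    (hW1 : TBc (D.t - 2 * b) (D.t - b) b D.h F) (hW2 : LRc (-(2 * b)) (D.t - b) b (2 * b) F)
    (hW3 : TBc (-(2 * b)) (-b) 0 (2 * b) F) {σ : St} (hv : D.Vis F σ) :
    -(2 * b) ≤ σ.1.1 ∧ (D.t - 2 * b ≤ σ.1.1 ∨ σ.1.2 ≤ 2 * b) := by
  by_contra hcon
  obtain ⟨g, hg, hr⟩ := vis_face hD hF hv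
  have hf := arms_face σ
  refine topo (G := GD D F) (x0 := -(2 * b) - 1) (x1 := D.t - 2 * b - 1) (x2 := D.t - b)
    (x3 := -b) (y1 := b - 1) (y2 := 2 * b) (c0 := 0) (d0 := D.h - 1) (by omega) (by omega)
    (by omega) (by omega) ?_ ?_ ?_ ?_ ?_ hr (by omega) ?_
  · rintro ⟨x, y, _ | _⟩ he h1
    · have := GD_f he
      simp only [src_mk, tgt_false] at h1 ⊢
      omega
    · have := GD_t he
      simp only [src_mk, tgt_true] at h1 ⊢
      omega
  · rintro ⟨x, y, _ | _⟩ he h1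
    · have := GD_f he
      simp only [src_mk] at h1 ⊢
      omega
    · have := GD_t he
      simp only [src_mk] at h1 ⊢
      omega
  · intro y y' h1 h2 h3
    obtain ⟨x, x', h4, h5, h6⟩ := hW1
    refine noTB (C := D.cfg F) (G := GD D F) GD_cfg (a := D.t - 2 * b) (b := D.t - b) (c := b)
      (d := D.h) (by omega) h5 (y := y) (y' := y') (by omega)
      (h6.mono (Set.inter_subset_inter_left _ Set.subset_union_left)) ?_
    rw [show b - 1 + 1 = b by ring] at h3
    exact h3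
  · intro x x' h1 h2 h3
    obtain ⟨y, y', h4, h5, h6⟩ := hW2
    refine noLR (C := D.cfg F) (G := GD D F) GD_cfg (a := -(2 * b)) (b := D.t - b) (c := b)
      (d := 2 * b) (by omega) h5 (x := x) (x' := x') (by omega)
      (h6.mono (Set.inter_subset_inter_left _ Set.subset_union_left)) ?_
    rw [show -(2 * b) - 1 + 1 = -(2 * b) by ring] at h3
    exact h3
  · intro y y' h1 h2 h3
    obtain ⟨x, x', h4, h5, h6⟩ := hW3
    exact noTB (C := D.cfg F) (G := GD D F) GD_cfg (a := -(2 * b)) (b := -b) (c := 0)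
      (d := 2 * b) (by omega) h5 (y := y) (y' := y') (by omega)
      (h6.mono (Set.inter_subset_inter_left _ Set.subset_union_left)) h3
  · have := hD.le_r
    rcases hg with hg | hg | hg <;> omega

/-- bent wall on the right -/
theorem right1 {D : Dm} (hD : D.Ok) {F : Finset Edg} (hF : F ⊆ D.edges) {b : ℤ} (hb : 1 ≤ b)
    (ht : D.t ≤ -b - 1) (hh : 2 * b + 1 ≤ D.h)
    (hW1 : TBc (D.t + b) (D.t + 2 * b) b D.h (dmp (D.edges \ F)))
    (hW2 : LRc (D.t + b) (2 * b) b (2 * b) (dmp (D.edges \ F)))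
    (hW3 : TBc b (2 * b) (-1) (2 * b) (dmp (D.edges \ F))) {σ : St} (hv : D.Vis F σ) :
    σ.1.1 ≤ 2 * b ∧ (σ.1.1 ≤ D.t + 2 * b ∨ σ.1.2 ≤ 2 * b) := by
  by_contra hcon
  have hr := vis_vtx hD hF hv
  have hl := hD.l_le
  have hl2 := hD.l_neg
  have wir_no : ∀ e ∈ ((↑(dmp (D.edges \ F)) : Set Edg)),
      ((dl.symm e).2.2 = true → (dl.symm e).2.1 = D.h → D.t ≤ (dl.symm e).1) →
      ((dl.symm e).2.2 = false → (dl.symm e).1 ≠ D.l) →
      ((dl.symm e).2.2 = true → (dl.symm e).2.1 = 0 → 0 ≤ (dl.symm e).1) → e ∈ GD D F := by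
    intro e he1 g1 g2 g3
    rw [mem_coe, mem_dmp, mem_sdiff] at he1
    rw [mem_GD]
    refine ⟨he1.1, ?_⟩
    rintro (h7 | h7)
    · exact he1.2 h7
    · rcases h7 with h7 | h7 | h7
      · have := g1 h7.1 h7.2.1; omega
      · exact g2 h7.1 h7.2.1
      · have := g3 h7.1 h7.2.1; omega
  refine topoR (G := D.cfg F) (x0 := 2 * b + 1) (x1 := D.t + 2 * b + 1) (x2 := D.t + b)
    (x3 := b) (y1 := b) (y2 := 2 * b + 1) (c0 := 0) (d0 := D.h) (by omega) (by omega)
    (by omega) (by omega) (fun e he => (cfg_b hD hF he).2) (fun e he => (cfg_b hD hF he).1)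
    ?_ ?_ ?_ hr (by omega) (by simp only; omega)
  · intro y y' h1 h2 h3
    obtain ⟨x, x', h4, h5, h6⟩ := hW1
    refine noLR (C := D.cfg F) (G := GD D F) GD_cfg (a := D.t + b) (b := D.t + 2 * b + 1)
      (c := b + 1) (d := D.h) (by omega) h2 (x := x) (x' := x') (by omega) h3 ?_
    rw [show D.t + 2 * b + 1 - 1 = D.t + 2 * b by ring, show b + 1 - 1 = b by ring]
    refine h6.mono ?_
    rintro e ⟨he1, he2⟩
    refine ⟨?_, he2⟩
    obtain ⟨x, y, _ | _⟩ := e
    · simp only [mem_coe, mem_TBE_false] at he2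
      refine wir_no _ he1 ?_ ?_ ?_
      · rw [dls_f]; intro _ _; simp only; omega
      · rw [dls_f]; simp
      · rw [dls_f]; simp only; intro _ _; omega
    · simp only [mem_coe, mem_TBE_true] at he2
      refine wir_no _ he1 ?_ ?_ ?_
      · rw [dls_t]; simp
      · rw [dls_t]; intro _; simp only; omega
      · rw [dls_t]; simp
  · intro x x' h1 h2 h3
    obtain ⟨y, y', h4, h5, h6⟩ := hW2
    refine noTB (C := D.cfg F) (G := GD D F) GD_cfg (a := D.t + b + 1) (b := 2 * b) (c := b)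
      (d := 2 * b + 1) (by omega) (x := x) (x' := x') (by omega) (y := y) (y' := y') (by omega)
      (by rw [show 2 * b + 1 - 1 = 2 * b by ring] at h3; exact h3) ?_
    rw [show D.t + b + 1 - 1 = D.t + b by ring, show 2 * b + 1 - 1 = 2 * b by ring]
    refine h6.mono ?_
    rintro e ⟨he1, he2⟩
    refine ⟨?_, he2⟩
    obtain ⟨x, y, _ | _⟩ := e
    · simp only [mem_coe, mem_LRE_false] at he2
      refine wir_no _ he1 ?_ ?_ ?_
      · rw [dls_f]; simp only; intro _ _; omega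
      · rw [dls_f]; simp
      · rw [dls_f]; simp only; intro _ _; omega
    · simp only [mem_coe, mem_LRE_true] at he2
      refine wir_no _ he1 ?_ ?_ ?_
      · rw [dls_t]; simp
      · rw [dls_t]; intro _; simp only; omega
      · rw [dls_t]; simp
  · intro y y' h1 h2 h3
    obtain ⟨x, x', h4, h5, h6⟩ := hW3
    refine noLR (C := D.cfg F) (G := GD D F) GD_cfg (a := b) (b := 2 * b + 1)
      (c := 0) (d := 2 * b) (by omega) (y' := y') (by omega) (x := x) (x' := x') (by omega)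
      (by rw [show 2 * b + 1 - 1 = 2 * b by ring] at h3; exact h3) ?_
    rw [show 2 * b + 1 - 1 = 2 * b by ring, show (0 : ℤ) - 1 = -1 by ring]
    refine h6.mono ?_
    rintro e ⟨he1, he2⟩
    refine ⟨?_, he2⟩
    obtain ⟨x, y, _ | _⟩ := e
    · simp only [mem_coe, mem_TBE_false] at he2
      refine wir_no _ he1 ?_ ?_ ?_
      · rw [dls_f]; simp only; intro _ _; omega
      · rw [dls_f]; simp
      · rw [dls_f]; simp only; intro _ _; omega
    · simp only [mem_coe, mem_TBE_true] at he2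
      refine wir_no _ he1 ?_ ?_ ?_
      · rw [dls_t]; simp
      · rw [dls_t]; intro _; simp only; omega
      · rw [dls_t]; simp

end Pool.Agent.L5helper97.DL
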