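import Pool.Agent.TH992.T.Up
import Pool.Agent.TH992.T.Low1

/-!
The number of steps of a path which stays in a union of boxes.
-/

set_option autoImplicit false

namespace Pool.Agent.L5helper97.DL

open H974 Finset H342P H984P H984N TH992.T

/-- the number of steps is at most the number of corners with two arms in the boxes -/
theorem len_cover {D : Dm} (hD : D.Ok) {F : Finset Edg} (hF : F ⊆ D.edges) {s : ℕ} {X0 Y0 : ℤ}
    (G : Finset (ℕ × ℕ))
    (h : ∀ σ, D.Vis F σ → ∃ q ∈ G, σ.1 ∈ Bq (X0 + q.1 * s) (Y0 + q.2 * s) s) :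
    (D.len F : ℝ) + 1 ≤ ∑ q ∈ G, Nb (xs D) s (X0 + q.1 * s) (Y0 + q.2 * s) F := by
  classical
  have e1 := Moments_sum hD hF (fun _ => (1 : ℝ))
  simp only [sum_const, card_range, nsmul_eq_mul, mul_one, Nat.cast_add, Nat.cast_one] at e1
  rw [e1]
  have h1 : ∀ σ ∈ D.states, ind (D.Vis F σ) ≤
      ∑ q ∈ G, (if σ.1 ∈ Bq (X0 + q.1 * s) (Y0 + q.2 * s) s then ind (D.Vis F σ) else 0) := by
    intro σ _
    by_cases hv : D.Vis F σ
    · obtain ⟨q, hq, hσ⟩ := h σ hv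
      refine le_trans (le_of_eq ?_) (single_le_sum (f := fun q : ℕ × ℕ =>
        (if σ.1 ∈ Bq (X0 + q.1 * s) (Y0 + q.2 * s) s then ind (D.Vis F σ) else 0))
        (fun q _ => ?_) hq)
      · simp only [hσ, if_true]
      · split_ifs
        · exact ind_nonneg _
        · exact le_refl _
    · rw [ind_not_of hv]
      refine sum_nonneg fun q _ => ?_
      split_ifs <;> exact le_refl _
  refine (sum_le_sum h1).trans ?_
  rw [sum_comm]
  refine sum_le_sum fun q _ => ?_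
  unfold Nb
  have e2 : ∑ σ ∈ D.states, (if σ.1 ∈ Bq (X0 + q.1 * s) (Y0 + q.2 * s) s then
      ind (D.Vis F σ) else 0) = ∑ v ∈ Finset.Icc D.l D.r ×ˢ Finset.Icc 0 D.h, ∑ c : Q4,
        (if v ∈ Bq (X0 + q.1 * s) (Y0 + q.2 * s) s then ind (D.Vis F (v, c)) else 0) := by
    unfold Dm.states
    rw [sum_product]
  rw [e2]
  have e3 : ∀ v ∈ Finset.Icc D.l D.r ×ˢ Finset.Icc 0 D.h, ∑ c : Q4,
        (if v ∈ Bq (X0 + q.1 * s) (Y0 + q.2 * s) s then ind (D.Vis F (v, c)) else 0) ≤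
        if v ∈ Bq (X0 + q.1 * s) (Y0 + q.2 * s) s then xs D s v F else 0 := by
    intro v hv
    by_cases hvB : v ∈ Bq (X0 + q.1 * s) (Y0 + q.2 * s) s
    · simp only [hvB, if_true]
      unfold xs
      refine sum_le_sum fun c _ => ?_
      rw [mem_product, mem_Icc, mem_Icc] at hv
      rw [if_pos (xs_mem' c hv)]
      refine ind_mono fun h => ?_
      rcases le_or_gt (min (s : ℤ) (D.bd v)) 0 with hm | hm
      · exact Or.inl hm
      · exact Or.inr (vis_two hD hF h hm (min_le_right _ _))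
    · simp only [hvB, if_false, sum_const_zero]
      exact le_refl _
  refine (sum_le_sum e3).trans ?_
  rw [← sum_filter]
  refine sum_le_sum_of_subset_of_nonneg ?_ fun v _ _ => ?_
  · intro v hv
    exact (mem_filter.1 hv).2
  · unfold xs
    refine sum_nonneg fun q _ => ?_
    split_ifs
    · exact ind_nonneg _
    · exact le_refl _

/-- Chernoff bound on a finite set of boxes -/
theorem chernG {p : Edg → ℝ} (hp : Ok p) {S : Finset Edg} (G : Finset (ℕ × ℕ))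
    (T : ℕ × ℕ → Finset Edg) (hT : ∀ q, T q ⊆ S)
    (hd : ∀ q r : ℕ × ℕ, q ≠ r → q.1 % 3 = r.1 % 3 → q.2 % 3 = r.2 % 3 → Disjoint (T q) (T r))
    (Y : ℕ × ℕ → Finset Edg → ℝ) (hY : ∀ q, ∀ F, F ⊆ S → Y q F = Y q (F ∩ T q)) {M : ℝ}
    (hM1 : 1 ≤ M) (hM : ∀ q, Ex p S (fun F => Real.exp (Y q F)) ≤ M) (t : ℝ) :
    Pr p S (fun F => 9 * t ≤ ∑ q ∈ G, Y q F) ≤ 9 * (Real.exp (-t) * M ^ G.card) := by
  classical
  set K := range 3 ×ˢ range 3 with hK
  have hmap : ∀ q ∈ G, (q.1 % 3, q.2 % 3) ∈ K := by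
    intro q _
    rw [hK, mem_product, mem_range, mem_range]
    exact ⟨Nat.mod_lt _ (by norm_num), Nat.mod_lt _ (by norm_num)⟩
  have hfib : ∀ F, ∑ q ∈ G, Y q F =
      ∑ c ∈ K, ∑ q ∈ G with (q.1 % 3, q.2 % 3) = c, Y q F := by
    intro F
    exact (sum_fiberwise_of_maps_to hmap _).symm
  have hcard : K.card = 9 := by rw [hK, card_product, card_range]
  have h1 : Pr p S (fun F => 9 * t ≤ ∑ q ∈ G, Y q F) ≤
      Ex p S (fun F => ∑ c ∈ K, ind (t ≤ ∑ q ∈ G with (q.1 % 3, q.2 % 3) = c, Y q F)) := by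
    unfold Pr
    refine Ex_mono hp fun F _ => ?_
    by_cases h : 9 * t ≤ ∑ q ∈ G, Y q F
    · rw [ind_of h]
      rw [hfib] at h
      obtain ⟨c, hc, hc2⟩ : ∃ c ∈ K, t ≤ ∑ q ∈ G with (q.1 % 3, q.2 % 3) = c, Y q F := by
        by_contra hcon
        push Not at hcon
        have h2 : ∑ c ∈ K, ∑ q ∈ G with (q.1 % 3, q.2 % 3) = c, Y q F < ∑ c ∈ K, t :=
          sum_lt_sum_of_nonempty (card_pos.mp (by rw [hcard]; norm_num)) hcon
        rw [sum_const, hcard, nsmul_eq_mul] at h2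
        push_cast at h2
        linarith
      calc (1:ℝ) = ind (t ≤ ∑ q ∈ G with (q.1 % 3, q.2 % 3) = c, Y q F) := (ind_of hc2).symm
        _ ≤ _ := single_le_sum (f := fun c => ind (t ≤ ∑ q ∈ G with (q.1 % 3, q.2 % 3) = c, Y q F))
          (fun c _ => ind_nonneg _) hc
    · rw [ind_not_of h]
      exact sum_nonneg fun c _ => ind_nonneg _
  refine h1.trans ?_
  rw [Ex_sum]
  have h2 : ∀ c ∈ K, Ex p S (fun F => ind (t ≤ ∑ q ∈ G with (q.1 % 3, q.2 % 3) = c, Y q F)) ≤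
      Real.exp (-t) * M ^ G.card := by
    intro c _
    have h3 := chern1 hp (G.filter (fun q => (q.1 % 3, q.2 % 3) = c)) T (fun i _ => hT i)
      (fun i hi j hj hij => by
        rw [mem_filter] at hi hj
        have e1 := hi.2.trans hj.2.symm
        rw [Prod.mk.injEq] at e1
        exact hd i j hij e1.1 e1.2) Y (fun i _ => hY i) (fun i _ => hM i) t
    refine h3.trans (mul_le_mul_of_nonneg_left ?_ (Real.exp_pos _).le)
    exact pow_le_pow_right₀ hM1 (card_filter_le _ _)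
  refine (sum_le_sum h2).trans ?_
  rw [sum_const, hcard, nsmul_eq_mul]
  push_cast
  exact le_refl _

/-- exponential moments -/
theorem mom_fam {C : ℝ} (hC : 0 < C) (hU : TwoUp C (1/4)) : ∃ M : ℝ, 1 ≤ M ∧
    ∀ (D : Dm) (s : ℕ) (b c : ℤ), 1 ≤ s →
      Ex (fun _ => (1/2:ℝ)) D.edges (fun F => Real.exp (Yb (1/4) (xs D) s b c F / 2)) ≤ M := by
  obtain ⟨u0, h0⟩ := tail0 (a := 1/4) (C0 := 4 * (C + 1) * (1 + 8 * (1 + 1 / (1 - 1/4))))
    (by norm_num) (by norm_num) 4 (by positivity)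
  refine ⟨max (Real.exp (u0 + 1 / 2) * (1 - Real.exp (-(1/2)))⁻¹) 1, le_max_right _ _,
    fun D s b c hs => ?_⟩
  have hf := xs_fam hC hU D
  refine (expmom two_ok _ (fun F => Yb_nonneg hf s b c F) (u0 := u0)
    (fun u hu => h0 _ _ _ hf s b c u hs hu) ⌈4 * (s : ℝ) ^ (1/4 : ℝ)⌉₊
    (fun F _ => (Yb_le hf hs b c F).trans (Nat.le_ceil _))).trans (le_max_left _ _)

/-- few corners with two arms in the boxes -/
theorem cover_pr {C : ℝ} (hC : 0 < C) (hU : TwoUp C (1/4)) {M : ℝ} (hM1 : 1 ≤ M)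
    (hM : ∀ (D : Dm) (s : ℕ) (b c : ℤ), 1 ≤ s →
      Ex (fun _ => (1/2:ℝ)) D.edges (fun F => Real.exp (Yb (1/4) (xs D) s b c F / 2)) ≤ M)
    {D : Dm} {s : ℕ} (hs : 1 ≤ s) {X0 Y0 : ℤ} (G : Finset (ℕ × ℕ)) (t : ℝ) :
    P D.edges (fun F => 18 * t * (s : ℝ) ^ (7/4 : ℝ) ≤
      ∑ q ∈ G, Nb (xs D) s (X0 + q.1 * s) (Y0 + q.2 * s) F) ≤
      9 * (Real.exp (-t) * M ^ G.card) := by
  have hf := xs_fam hC hU D
  have ha0 : (0 : ℝ) < s := by exact_mod_cast hs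
  have hpos : 0 < (s : ℝ) ^ (7/4 : ℝ) := Real.rpow_pos_of_pos ha0 _
  have h1 := chernG two_ok (S := D.edges) G
    (fun q => Tb D.edges s (X0 + q.1 * s) (Y0 + q.2 * s))
    (fun q => inter_subset_right) (fun q q' hqq h1 h2 => Tb_disj hs hqq h1 h2)
    (fun q F => Yb (1/4) (xs D) s (X0 + q.1 * s) (Y0 + q.2 * s) F / 2)
    (fun q F hF => by
      simp only [Yb]
      rw [← Nb_local hf s _ _ F hF])
    hM1 (fun q => hM D s _ _ hs) t
  refine le_trans (Pr_mono two_ok fun F hF hx => ?_) h1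
  have e2 : ∑ q ∈ G, Nb (xs D) s (X0 + q.1 * s) (Y0 + q.2 * s) F = (2 * (s : ℝ) ^ (7/4 : ℝ)) *
      ∑ q ∈ G, Yb (1/4) (xs D) s (X0 + q.1 * s) (Y0 + q.2 * s) F / 2 := by
    rw [mul_sum]
    refine sum_congr rfl fun q _ => ?_
    unfold Yb
    have e2 : (2 - 1/4 : ℝ) = 7/4 := by norm_num
    rw [e2]
    field_simp
  rw [e2] at hx
  have h2 : (2 * (s : ℝ) ^ (7/4 : ℝ)) * (9 * t) ≤ (2 * (s : ℝ) ^ (7/4 : ℝ)) *
      ∑ q ∈ G, Yb (1/4) (xs D) s (X0 + q.1 * s) (Y0 + q.2 * s) F / 2 := by linarith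
  exact le_of_mul_le_mul_left h2 (by positivity)

end Pool.Agent.L5helper97.DL
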