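import Pool.Agent.TH992.T.Low1
import Pool.Agent.H12R2.Sep.Win1
import Pool.Agent.H984R4.NP.Defs

/-!
The probability of the walls.
-/

set_option autoImplicit false

namespace Pool.Agent.L5helper97.DL

open H974 Finset H342P H984P H984N TH992.T

/-- independence of the two sides -/
theorem wall_ind {E : Finset Edg} (c : ℤ) {A B : Finset Edg → Prop}
    (hA : ∀ F, F ⊆ E → (A F ↔ A (F ∩ E.filter (fun e => e.1 ≤ c))))
    (hB : ∀ G, G ⊆ dmp E → (B G ↔ B (G ∩ dmp (E.filter (fun e => c < e.1))))) :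
    P E (fun F => A F ∧ B (dmp (E \ F))) = P E A * P (dmp E) B := by
  classical
  obtain ⟨T, hT⟩ : ∃ T, T = E.filter (fun e => c < e.1) := ⟨_, rfl⟩
  rw [← hT] at hB
  have hTE : T ⊆ E := by rw [hT]; exact filter_subset _ _
  have h1 : P E (fun F => A F ∧ B (dmp (E \ F))) = P E A * P E (fun F => B (dmp (E \ F))) := by
    refine Pr_indep (S := E.filter (fun e => e.1 ≤ c)) (T := T) (filter_subset _ _) hTE ?_ hA ?_
    · rw [hT, disjoint_filter]
      intro e _ h1 h2
      omega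
    · intro F hF
      have e0 : ∀ X, X ⊆ E → (B (dmp X) ↔ B (dmp (X ∩ T))) := by
        intro X hX
        rw [hB (dmp X) (by
          intro e he
          rw [mem_dmp] at he ⊢
          exact hX he)]
        have : dmp X ∩ dmp T = dmp (X ∩ T) := by
          ext e
          rw [mem_inter, mem_dmp, mem_dmp, mem_dmp, mem_inter]
        rw [this]
      rw [e0 _ sdiff_subset, e0 (E \ (F ∩ T)) sdiff_subset]
      have : (E \ F) ∩ T = (E \ (F ∩ T)) ∩ T := by
        ext e
        simp only [mem_inter, mem_sdiff]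
        tauto
      rw [this]
  have e := H12S.pr_dual (q := 1/2) E B
  have e1 : (1:ℝ) - 1/2 = 1/2 := by norm_num
  rw [e1] at e
  unfold H12S.PQ at e
  rw [h1]
  unfold P
  rw [e]

/-- three increasing events -/
theorem three {S : Finset Edg} {A B C : Finset Edg → Prop} {κ : ℝ} (hκ : 0 ≤ κ)
    (iA : IncrE S A) (iB : IncrE S B) (iC : IncrE S C)
    (hA : κ ≤ P S A) (hB : κ ≤ P S B) (hC : κ ≤ P S C) :
    κ * κ * κ ≤ P S (fun F => A F ∧ B F ∧ C F) := by
  have ok : Ok (fun _ : Edg => (1/2:ℝ)) := okq (by norm_num) (by norm_num)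
  have h1 := Pr_harris ok iB iC
  have h2 := Pr_harris ok (A := A) (B := fun F => B F ∧ C F) iA
    (fun F G h h' hF => ⟨iB F G h h' hF.1, iC F G h h' hF.2⟩)
  have h3 : κ * κ ≤ Pr (fun _ => (1/2:ℝ)) S (fun F => B F ∧ C F) :=
    (mul_le_mul hB hC hκ (hκ.trans hB)).trans h1
  have h4 := mul_le_mul hA h3 (by positivity) (hκ.trans hA)
  refine le_trans (le_of_eq (by ring)) (h4.trans h2)

theorem tb_lo {S : Finset Edg} {a b c d : ℤ} {m : ℕ} (hab : a < b) (hcd : c < d)
    (hm : d - c ≤ 8 * (b - a) * m + 8 * (b - a)) (hS : TBE a b c d ⊆ S) :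
    q0 ^ (2 * m + 1) ≤ P S (TBc a b c d) := by
  unfold P
  rw [pr_TBc _ hS]
  exact hh_wide (by omega) (by omega) hm

theorem lr_lo {S : Finset Edg} {a b c d : ℤ} {m : ℕ} (hab : a < b) (hcd : c < d)
    (hm : b - a ≤ 8 * (d - c) * m + 8 * (d - c)) (hS : LRE a b c d ⊆ S) :
    q0 ^ (2 * m + 1) ≤ P S (LRc a b c d) := by
  unfold P
  rw [pr_LRc _ hS]
  exact hh_wide (by omega) (by omega) hm

variable {D : Dm} {b m : ℕ}

/-- walls, the start on the right of the end -/
theorem walls_pos (hb : 1 ≤ b) (ht : (b : ℤ) + 1 ≤ D.t) (hh : 2 * (b : ℤ) + 1 ≤ D.h)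
    (hl : D.l ≤ -(2 * b)) (hr : D.t + 2 * b < D.r) (h1 : D.h + 1 ≤ 8 * (b : ℤ) * m + 8 * b)
    (h2 : D.t + b ≤ 8 * (b : ℤ) * m + 8 * b) :
    (q0 ^ (2 * m + 1)) ^ 4 ≤ P D.edges (fun F =>
      (TBc (D.t - 2 * b) (D.t - b) b D.h F ∧ LRc (-(2 * (b : ℤ))) (D.t - b) b (2 * b) F ∧
        TBc (-(2 * (b : ℤ))) (-(b : ℤ)) 0 (2 * b) F) ∧
      TBc (D.t + b) (D.t + 2 * b) (-1) D.h (dmp (D.edges \ F))) := by
  have hb' : (1 : ℤ) ≤ b := by exact_mod_cast hb
  have hbm : 0 ≤ (b : ℤ) * m := by positivity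
  have hq := q0_pos
  have hq' : 0 ≤ q0 ^ (2 * m + 1) := by positivity
  have t1 : TBE (D.t - 2 * b) (D.t - b) b D.h ⊆ D.edges.filter (fun e => e.1 ≤ D.t) := by
    rintro ⟨x, y, _ | _⟩ he
    · rw [mem_TBE_false] at he
      rw [mem_filter]
      unfold Dm.edges
      rw [mem_RE_false]
      simp only
      omega
    · rw [mem_TBE_true] at he
      rw [mem_filter]
      unfold Dm.edges
      rw [mem_RE_true]
      simp only
      omega
  have t2 : LRE (-(2 * (b : ℤ))) (D.t - b) b (2 * b) ⊆ D.edges.filter (fun e => e.1 ≤ D.t) := by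
    rintro ⟨x, y, _ | _⟩ he
    · rw [mem_LRE_false] at he
      rw [mem_filter]
      unfold Dm.edges
      rw [mem_RE_false]
      simp only
      omega
    · rw [mem_LRE_true] at he
      rw [mem_filter]
      unfold Dm.edges
      rw [mem_RE_true]
      simp only
      omega
  have t3 : TBE (-(2 * (b : ℤ))) (-(b : ℤ)) 0 (2 * b) ⊆ D.edges.filter (fun e => e.1 ≤ D.t) := by
    rintro ⟨x, y, _ | _⟩ he
    · rw [mem_TBE_false] at he
      rw [mem_filter]
      unfold Dm.edges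
      rw [mem_RE_false]
      simp only
      omega
    · rw [mem_TBE_true] at he
      rw [mem_filter]
      unfold Dm.edges
      rw [mem_RE_true]
      simp only
      omega
  have t4 : TBE (D.t + b) (D.t + 2 * b) (-1) D.h ⊆
      dmp (D.edges.filter (fun e => D.t < e.1)) := by
    rintro ⟨x, y, _ | _⟩ he
    · rw [mem_TBE_false] at he
      rw [mem_dmp, dls_f, mem_filter]
      unfold Dm.edges
      rw [mem_RE_true]
      simp only
      omega
    · rw [mem_TBE_true] at he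
      rw [mem_dmp, dls_t, mem_filter]
      unfold Dm.edges
      rw [mem_RE_false]
      simp only
      omega
  have sub1 : D.edges.filter (fun e => e.1 ≤ D.t) ⊆ D.edges := filter_subset _ _
  have sub2 : dmp (D.edges.filter (fun e => D.t < e.1)) ⊆ dmp D.edges := by
    intro e he
    rw [mem_dmp] at he ⊢
    exact (mem_filter.1 he).1
  rw [wall_ind D.t (A := fun F => TBc (D.t - 2 * b) (D.t - b) b D.h F ∧
      LRc (-(2 * (b : ℤ))) (D.t - b) b (2 * b) F ∧ TBc (-(2 * (b : ℤ))) (-(b : ℤ)) 0 (2 * b) F)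
      (B := TBc (D.t + b) (D.t + 2 * b) (-1) D.h)
      (fun F _ => and_congr (TBc_local t1) (and_congr (LRc_local t2) (TBc_local t3)))
      (fun F _ => TBc_local t4)]
  have g1 : q0 ^ (2 * m + 1) * q0 ^ (2 * m + 1) * q0 ^ (2 * m + 1) ≤
      P D.edges (fun F => TBc (D.t - 2 * b) (D.t - b) b D.h F ∧
      LRc (-(2 * (b : ℤ))) (D.t - b) b (2 * b) F ∧
      TBc (-(2 * (b : ℤ))) (-(b : ℤ)) 0 (2 * b) F) := by
    refine three hq' (TBc_incr _ _ _ _ _) (LRc_incr _ _ _ _ _) (TBc_incr _ _ _ _ _) ?_ ?_ ?_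
    · exact tb_lo (by omega) (by omega)
        (by rw [show D.t - (b : ℤ) - (D.t - 2 * b) = b by ring]; omega) (t1.trans sub1)
    · exact lr_lo (by omega) (by omega)
        (by rw [show 2 * (b : ℤ) - b = b by ring]; omega) (t2.trans sub1)
    · exact tb_lo (by omega) (by omega)
        (by rw [show -(b : ℤ) - -(2 * b) = b by ring]; nlinarith) (t3.trans sub1)
  have g2 : q0 ^ (2 * m + 1) ≤ P (dmp D.edges) (TBc (D.t + b) (D.t + 2 * b) (-1) D.h) :=
    tb_lo (by omega) (by omega)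
      (by rw [show D.t + 2 * (b : ℤ) - (D.t + b) = b by ring]; omega) (t4.trans sub2)
  refine le_trans (le_of_eq ?_) (mul_le_mul g1 g2 hq' ((by positivity : (0:ℝ) ≤
    q0 ^ (2 * m + 1) * q0 ^ (2 * m + 1) * q0 ^ (2 * m + 1)).trans g1))
  ring

/-- walls, the start on the left of the end -/
theorem walls_neg (hb : 1 ≤ b) (ht : D.t ≤ -(b : ℤ) - 1) (hh : 2 * (b : ℤ) + 1 ≤ D.h)
    (hl : D.l ≤ D.t - 2 * b) (hr : 2 * b < D.r) (h1 : D.h + 1 ≤ 8 * (b : ℤ) * m + 8 * b)
    (h2 : -D.t + b ≤ 8 * (b : ℤ) * m + 8 * b) :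
    (q0 ^ (2 * m + 1)) ^ 4 ≤ P D.edges (fun F =>
      TBc (D.t - 2 * b) (D.t - b) 0 D.h F ∧
      (TBc (D.t + b) (D.t + 2 * b) b D.h (dmp (D.edges \ F)) ∧
        LRc (D.t + b) (2 * b) b (2 * b) (dmp (D.edges \ F)) ∧
        TBc b (2 * b) (-1) (2 * b) (dmp (D.edges \ F)))) := by
  have hb' : (1 : ℤ) ≤ b := by exact_mod_cast hb
  have hbm : 0 ≤ (b : ℤ) * m := by positivity
  have hq := q0_pos
  have hq' : 0 ≤ q0 ^ (2 * m + 1) := by positivity
  have t1 : TBE (D.t - 2 * b) (D.t - b) 0 D.h ⊆ D.edges.filter (fun e => e.1 ≤ D.t) := by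
    rintro ⟨x, y, _ | _⟩ he
    · rw [mem_TBE_false] at he
      rw [mem_filter]
      unfold Dm.edges
      rw [mem_RE_false]
      simp only
      omega
    · rw [mem_TBE_true] at he
      rw [mem_filter]
      unfold Dm.edges
      rw [mem_RE_true]
      simp only
      omega
  have t2 : TBE (D.t + b) (D.t + 2 * b) b D.h ⊆
      dmp (D.edges.filter (fun e => D.t < e.1)) := by
    rintro ⟨x, y, _ | _⟩ he
    · rw [mem_TBE_false] at he
      rw [mem_dmp, dls_f, mem_filter]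
      unfold Dm.edges
      rw [mem_RE_true]
      simp only
      omega
    · rw [mem_TBE_true] at he
      rw [mem_dmp, dls_t, mem_filter]
      unfold Dm.edges
      rw [mem_RE_false]
      simp only
      omega
  have t3 : LRE (D.t + b) (2 * b) b (2 * b) ⊆
      dmp (D.edges.filter (fun e => D.t < e.1)) := by
    rintro ⟨x, y, _ | _⟩ he
    · rw [mem_LRE_false] at he
      rw [mem_dmp, dls_f, mem_filter]
      unfold Dm.edges
      rw [mem_RE_true]
      simp only
      omega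
    · rw [mem_LRE_true] at he
      rw [mem_dmp, dls_t, mem_filter]
      unfold Dm.edges
      rw [mem_RE_false]
      simp only
      omega
  have t4 : TBE (b : ℤ) (2 * b) (-1) (2 * b) ⊆
      dmp (D.edges.filter (fun e => D.t < e.1)) := by
    rintro ⟨x, y, _ | _⟩ he
    · rw [mem_TBE_false] at he
      rw [mem_dmp, dls_f, mem_filter]
      unfold Dm.edges
      rw [mem_RE_true]
      simp only
      omega
    · rw [mem_TBE_true] at he
      rw [mem_dmp, dls_t, mem_filter]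
      unfold Dm.edges
      rw [mem_RE_false]
      simp only
      omega
  have sub1 : D.edges.filter (fun e => e.1 ≤ D.t) ⊆ D.edges := filter_subset _ _
  have sub2 : dmp (D.edges.filter (fun e => D.t < e.1)) ⊆ dmp D.edges := by
    intro e he
    rw [mem_dmp] at he ⊢
    exact (mem_filter.1 he).1
  rw [wall_ind D.t (A := TBc (D.t - 2 * b) (D.t - b) 0 D.h)
      (B := fun G => TBc (D.t + b) (D.t + 2 * b) b D.h G ∧
        LRc (D.t + b) (2 * b) b (2 * b) G ∧ TBc b (2 * b) (-1) (2 * b) G)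
      (fun F _ => TBc_local t1)
      (fun F _ => and_congr (TBc_local t2) (and_congr (LRc_local t3) (TBc_local t4)))]
  have g1 : q0 ^ (2 * m + 1) * q0 ^ (2 * m + 1) * q0 ^ (2 * m + 1) ≤
      P (dmp D.edges) (fun G => TBc (D.t + b) (D.t + 2 * b) b D.h G ∧
        LRc (D.t + b) (2 * b) b (2 * b) G ∧ TBc b (2 * b) (-1) (2 * b) G) := by
    refine three hq' (TBc_incr _ _ _ _ _) (LRc_incr _ _ _ _ _) (TBc_incr _ _ _ _ _) ?_ ?_ ?_
    · exact tb_lo (by omega) (by omega)
        (by rw [show D.t + 2 * (b : ℤ) - (D.t + b) = b by ring]; omega) (t2.trans sub2)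
    · exact lr_lo (by omega) (by omega)
        (by rw [show 2 * (b : ℤ) - b = b by ring]; omega) (t3.trans sub2)
    · exact tb_lo (by omega) (by omega)
        (by rw [show 2 * (b : ℤ) - b = b by ring]; nlinarith) (t4.trans sub2)
  have g2 : q0 ^ (2 * m + 1) ≤ P D.edges (TBc (D.t - 2 * b) (D.t - b) 0 D.h) :=
    tb_lo (by omega) (by omega)
      (by rw [show D.t - (b : ℤ) - (D.t - 2 * b) = b by ring]; omega) (t1.trans sub1)
  refine le_trans (le_of_eq ?_) (mul_le_mul g2 g1 (by positivity) (hq'.trans g2))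
  ring

/-- walls, the start above the end -/
theorem walls_zero (hD : D.Ok) (hb : 1 ≤ b)
    (hl : D.l ≤ -(2 * b)) (hr : 2 * b < D.r) (h1 : D.h + 1 ≤ 8 * (b : ℤ) * m + 8 * b) :
    (q0 ^ (2 * m + 1)) ^ 4 ≤ P D.edges (fun F =>
      TBc (-(2 * (b : ℤ))) (-(b : ℤ)) 0 D.h F ∧
      TBc b (2 * b) (-1) D.h (dmp (D.edges \ F))) := by
  have hb' : (1 : ℤ) ≤ b := by exact_mod_cast hb
  have hq := q0_pos
  have hq' : 0 ≤ q0 ^ (2 * m + 1) := by positivity
  have hq1 : q0 ^ (2 * m + 1) ≤ 1 := pow_le_one₀ hq.le q0_le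
  have hh := hD.h_pos
  have t1 : TBE (-(2 * (b : ℤ))) (-(b : ℤ)) 0 D.h ⊆ D.edges.filter (fun e => e.1 ≤ 0) := by
    rintro ⟨x, y, _ | _⟩ he
    · rw [mem_TBE_false] at he
      rw [mem_filter]
      unfold Dm.edges
      rw [mem_RE_false]
      simp only
      omega
    · rw [mem_TBE_true] at he
      rw [mem_filter]
      unfold Dm.edges
      rw [mem_RE_true]
      simp only
      omega
  have t4 : TBE (b : ℤ) (2 * b) (-1) D.h ⊆
      dmp (D.edges.filter (fun e => 0 < e.1)) := by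
    rintro ⟨x, y, _ | _⟩ he
    · rw [mem_TBE_false] at he
      rw [mem_dmp, dls_f, mem_filter]
      unfold Dm.edges
      rw [mem_RE_true]
      simp only
      omega
    · rw [mem_TBE_true] at he
      rw [mem_dmp, dls_t, mem_filter]
      unfold Dm.edges
      rw [mem_RE_false]
      simp only
      omega
  have sub1 : D.edges.filter (fun e => e.1 ≤ 0) ⊆ D.edges := filter_subset _ _
  have sub2 : dmp (D.edges.filter (fun e => 0 < e.1)) ⊆ dmp D.edges := by
    intro e he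
    rw [mem_dmp] at he ⊢
    exact (mem_filter.1 he).1
  rw [wall_ind 0 (A := TBc (-(2 * (b : ℤ))) (-(b : ℤ)) 0 D.h)
      (B := TBc b (2 * b) (-1) D.h) (fun F _ => TBc_local t1) (fun F _ => TBc_local t4)]
  have g1 : q0 ^ (2 * m + 1) ≤ P (dmp D.edges) (TBc (b : ℤ) (2 * b) (-1) D.h) :=
    tb_lo (by omega) (by omega)
      (by rw [show 2 * (b : ℤ) - b = b by ring]; omega) (t4.trans sub2)
  have g2 : q0 ^ (2 * m + 1) ≤ P D.edges (TBc (-(2 * (b : ℤ))) (-(b : ℤ)) 0 D.h) :=
    tb_lo (by omega) (by omega)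
      (by rw [show -(b : ℤ) - -(2 * b) = b by ring]; omega) (t1.trans sub1)
  refine le_trans ?_ (mul_le_mul g2 g1 hq' (hq'.trans g2))
  calc (q0 ^ (2 * m + 1)) ^ 4 = q0 ^ (2 * m + 1) * q0 ^ (2 * m + 1) *
        (q0 ^ (2 * m + 1) * q0 ^ (2 * m + 1)) := by ring
    _ ≤ q0 ^ (2 * m + 1) * q0 ^ (2 * m + 1) * 1 := by
        refine mul_le_mul_of_nonneg_left ?_ (by positivity)
        exact mul_le_one₀ hq1 hq' hq1
    _ = _ := by ring

end Pool.Agent.L5helper97.DL
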