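import Pool.Agent.L5helper97.DL.Conf
import Pool.Agent.L5helper97.DL.Count
import Pool.Agent.L5helper97.DL.WallPr
import Pool.Agent.TH992.T.Low4

/-!
The path is fast with a probability which is not too small.
-/

set_option autoImplicit false

namespace Pool.Agent.L5helper97.DL

open H974 Finset H342P H984P H984N TH992.T

/-- Walls, and few corners with two arms between them. -/
theorem low_gen {C : ℝ} (hC : 0 < C) (hU : TwoUp C (1/4)) : ∃ θ K2 : ℝ, 0 < θ ∧ 0 < K2 ∧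
    ∀ (D : Dm) (b K : ℕ) (W : Finset Edg → Prop) (G : Finset (ℕ × ℕ)) (X0 : ℤ), D.Ok → 1 ≤ b →
      1 ≤ K → (q0 ^ (2 * K + 1)) ^ 4 ≤ P D.edges W → G.card ≤ 28 * K →
      (∀ F, F ⊆ D.edges → W F → ∀ σ, D.Vis F σ →
        ∃ q ∈ G, σ.1 ∈ Bq (X0 + q.1 * b) (0 + q.2 * b) b) →
      Real.exp (-(K2 * K)) ≤ P D.edges (fun F => (D.len F : ℝ) ≤ θ * K * (b : ℝ) ^ (7/4 : ℝ)) := by
  obtain ⟨M, hM1, hM⟩ := mom_fam hC hU
  have hM0 : 0 < M := by linarith
  have hlM : 0 ≤ Real.log M := Real.log_nonneg hM1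
  have hlq := log_q0
  obtain ⟨θ, hθ⟩ : ∃ θ, θ = 28 * Real.log M - 12 * Real.log q0 + 3 := ⟨_, rfl⟩
  have hθ0 : 0 < θ := by rw [hθ]; linarith
  refine ⟨18 * θ, 1 - 12 * Real.log q0, by positivity, by linarith, ?_⟩
  intro D b K W G X0 hD hb hK hW hG hcov
  have s5 := cover_pr hC hU hM1 hM (D := D) hb (X0 := X0) (Y0 := 0) G (θ * K)
  obtain ⟨B, hB⟩ : ∃ B : Finset Edg → Prop,
    B = fun F => 18 * (θ * K) * (b : ℝ) ^ (7/4 : ℝ) ≤
      ∑ q ∈ G, Nb (xs D) b (X0 + q.1 * b) (0 + q.2 * b) F := ⟨_, rfl⟩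
  rw [← hB] at s5
  have s6 : P D.edges W - P D.edges B ≤
      P D.edges (fun F => (D.len F : ℝ) ≤ 18 * θ * K * (b : ℝ) ^ (7/4 : ℝ)) := by
    unfold P Pr
    rw [← Ex_sub]
    refine Ex_mono two_ok fun F hF => ?_
    by_cases h1 : W F
    · by_cases h2 : B F
      · rw [ind_of h1, ind_of h2]
        have := ind_nonneg ((D.len F : ℝ) ≤ 18 * θ * K * (b : ℝ) ^ (7/4 : ℝ))
        linarith
      · have h3 : (D.len F : ℝ) ≤ 18 * θ * K * (b : ℝ) ^ (7/4 : ℝ) := by
          have h4 := len_cover hD hF G (hcov F hF h1)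
          rw [hB] at h2
          have h5 := not_le.mp h2
          have e : 18 * (θ * (K : ℝ)) * (b : ℝ) ^ (7/4 : ℝ) =
            18 * θ * K * (b : ℝ) ^ (7/4 : ℝ) := by ring
          rw [e] at h5
          linarith
        rw [ind_of h1, ind_of h3]
        have := ind_nonneg (B F)
        linarith
    · rw [ind_not_of h1]
      have h2 := ind_nonneg ((D.len F : ℝ) ≤ 18 * θ * K * (b : ℝ) ^ (7/4 : ℝ))
      have h3 := ind_nonneg (B F)
      linarith
  have hKr : (1 : ℝ) ≤ K := by exact_mod_cast hK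
  have h7 : Real.exp (12 * Real.log q0 * K) ≤ (q0 ^ (2 * K + 1)) ^ 4 := by
    rw [← pow_mul]
    have e : q0 ^ ((2 * K + 1) * 4) =
        Real.exp ((((2 * K + 1) * 4 : ℕ) : ℝ) * Real.log q0) := by
      rw [Real.exp_nat_mul, Real.exp_log q0_pos]
    rw [e]
    refine Real.exp_le_exp.mpr ?_
    push_cast
    nlinarith
  have h8 : 9 * (Real.exp (-(θ * K)) * M ^ G.card) ≤
      1 / 2 * Real.exp (12 * Real.log q0 * K) := by
    have e : M ^ G.card ≤ Real.exp (28 * Real.log M * K) := by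
      refine (pow_le_pow_right₀ hM1 hG).trans (le_of_eq ?_)
      have e2 : 28 * Real.log M * K = ((28 * K : ℕ) : ℝ) * Real.log M := by push_cast; ring
      rw [e2, Real.exp_nat_mul, Real.exp_log hM0]
    have e1 : 9 * (Real.exp (-(θ * K)) * M ^ G.card) ≤
        9 * (Real.exp (-(θ * K)) * Real.exp (28 * Real.log M * K)) := by
      have := Real.exp_pos (-(θ * K))
      gcongr
    refine e1.trans ?_
    rw [← Real.exp_add]
    have e3 : -(θ * K) + 28 * Real.log M * K = 12 * Real.log q0 * K + -(3 * K) := by rw [hθ]; ring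
    rw [e3, Real.exp_add]
    have h9 : Real.exp (-(3 * (K : ℝ))) ≤ Real.exp (-3) :=
      Real.exp_le_exp.mpr (by linarith)
    have h10 : 9 * Real.exp (-3) ≤ 1 / 2 := by
      have h11 : (18 : ℝ) ≤ Real.exp 3 := by
        have h12 : Real.exp 3 = Real.exp 1 ^ 3 := by rw [← Real.exp_nat_mul]; norm_num
        have h13 := Real.exp_one_gt_d9
        rw [h12]
        have h14 : (2.7 : ℝ) ^ 3 ≤ Real.exp 1 ^ 3 := pow_le_pow_left₀ (by norm_num) (by linarith) 3
        norm_num at h14 ⊢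
        linarith
      rw [Real.exp_neg, ← div_eq_mul_inv, div_le_div_iff₀ (Real.exp_pos _) (by norm_num)]
      linarith
    have h15 := Real.exp_pos (12 * Real.log q0 * K)
    nlinarith
  have h16 : Real.exp (-((1 - 12 * Real.log q0) * K)) ≤
      1 / 2 * Real.exp (12 * Real.log q0 * K) := by
    have e : -((1 - 12 * Real.log q0) * K) = 12 * Real.log q0 * K + -K := by ring
    rw [e, Real.exp_add]
    have h17 : Real.exp (-(K : ℝ)) ≤ 1 / 2 := by
      have h18 : Real.exp (-(K : ℝ)) ≤ Real.exp (-1) := Real.exp_le_exp.mpr (by linarith)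
      have h19 : Real.exp (-1) ≤ 1 / 2 := by
        rw [Real.exp_neg]
        have := Real.exp_one_gt_d9
        rw [inv_le_comm₀ (Real.exp_pos _) (by norm_num)]
        linarith
      linarith
    have h15 := Real.exp_pos (12 * Real.log q0 * K)
    nlinarith
  linarith

/-- the box of a coordinate -/
theorem box_of {b : ℕ} (hb : 1 ≤ b) {x : ℤ} (hx : 0 ≤ x) :
    ∃ i : ℕ, (i : ℤ) * b ≤ x ∧ x < i * b + b := by
  have hb' : (0 : ℤ) < b := by exact_mod_cast hb
  refine ⟨(x / b).toNat, ?_, ?_⟩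
  · rw [Int.toNat_of_nonneg (Int.ediv_nonneg hx hb'.le)]
    exact Int.ediv_mul_le x hb'.ne'
  · rw [Int.toNat_of_nonneg (Int.ediv_nonneg hx hb'.le)]
    have := Int.lt_ediv_add_one_mul_self x hb'
    linarith [this]

theorem lt_of_box {b i n : ℕ} {x : ℤ} (h : (i : ℤ) * b ≤ x) (h2 : x < n * b) : i < n := by
  by_contra hcon
  push Not at hcon
  have h3 : (n : ℤ) * b ≤ i * b :=
    mul_le_mul_of_nonneg_right (by exact_mod_cast hcon) (by positivity)
  linarith

/-- the boxes -/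
def boxes (i0 K : ℕ) : Finset (ℕ × ℕ) :=
  (Finset.Icc i0 (i0 + 4) ×ˢ range (K + 1)) ∪ (range (K + 5) ×ˢ range 3)

theorem boxes_card {i0 K : ℕ} (hK : 1 ≤ K) : (boxes i0 K).card ≤ 28 * K := by
  unfold boxes
  refine (card_union_le _ _).trans ?_
  rw [card_product, card_product, Nat.card_Icc, card_range, card_range, card_range,
    show i0 + 4 + 1 - i0 = 5 by omega]
  omega

/-- the boxes cover the corridor -/
theorem boxes_cover {b K i0 : ℕ} (hb : 1 ≤ b) {X0 h t x y : ℤ} (hi : (i0 : ℤ) * b ≤ t)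
    (hi' : t < i0 * b + b) (hy : 0 ≤ y ∧ y ≤ h) (hhK : h < (K + 1 : ℕ) * b) (hx : 0 ≤ x - X0)
    (hxK : x - X0 < (K + 5 : ℕ) * b) (hor : (t ≤ x - X0 ∧ x - X0 ≤ t + 4 * b) ∨ y ≤ 2 * b) :
    ∃ q ∈ boxes i0 K, ((x, y) : Vtx) ∈ Bq (X0 + q.1 * b) (0 + q.2 * b) b := by
  have hb' : (0 : ℤ) < b := by exact_mod_cast hb
  obtain ⟨i, h1, h2⟩ := box_of hb hx
  obtain ⟨j, h3, h4⟩ := box_of hb hy.1
  have hmem : ((x, y) : Vtx) ∈ Bq (X0 + i * b) (0 + j * b) b := by
    rw [mem_Bq]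
    simp only
    refine ⟨⟨by linarith, by linarith⟩, by linarith, by linarith⟩
  refine ⟨(i, j), ?_, hmem⟩
  unfold boxes
  rw [mem_union, mem_product, mem_product, mem_Icc, mem_range, mem_range, mem_range]
  simp only
  rcases hor with ⟨h5, h6⟩ | h5
  · left
    refine ⟨⟨?_, ?_⟩, ?_⟩
    · have : i0 < i + 1 := lt_of_box (b := b) (x := t) hi (by push_cast; linarith)
      omega
    · have : i < i0 + 5 := lt_of_box (b := b) h1 (by push_cast; linarith)
      omega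
    · exact lt_of_box (b := b) h3 (by linarith)
  · right
    refine ⟨lt_of_box (b := b) h1 hxK, lt_of_box (b := b) h3 (by push_cast; linarith)⟩

/-- The path is fast with a probability which is not too small. -/
theorem low_len {C : ℝ} (hC : 0 < C) (hU : TwoUp C (1/4)) : ∃ θ K2 : ℝ, 0 < θ ∧ 0 < K2 ∧
    ∀ (D : Dm) (b K : ℕ), D.Ok → 1 ≤ b → 1 ≤ K → 2 * (b : ℤ) + 1 ≤ D.h →
      D.l ≤ -(2 * b) → D.l ≤ D.t - 2 * b → 2 * b < D.r → D.t + 2 * b < D.r →
      D.h + 1 ≤ (b : ℤ) * K → |D.t| + b ≤ (b : ℤ) * K →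
      (D.t = 0 ∨ (b : ℤ) + 1 ≤ D.t ∨ D.t ≤ -(b : ℤ) - 1) →
      Real.exp (-(K2 * K)) ≤ P D.edges (fun F => (D.len F : ℝ) ≤ θ * K * (b : ℝ) ^ (7/4 : ℝ)) := by
  obtain ⟨θ, K2, hθ, hK2, key⟩ := low_gen hC hU
  refine ⟨θ, K2, hθ, hK2, ?_⟩
  intro D b K hD hb hK hh hl hl2 hr hr2 hhK htK htri
  have hb' : (1 : ℤ) ≤ b := by exact_mod_cast hb
  have hK' : (1 : ℤ) ≤ K := by exact_mod_cast hK
  have hbK : 0 ≤ (b : ℤ) * K := by positivity
  have habs := abs_le.1 (show |D.t| ≤ (b : ℤ) * K - b by linarith)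
  have hc1 : D.h < ((K + 1 : ℕ) : ℤ) * b := by push_cast; nlinarith
  have hin : ∀ F, F ⊆ D.edges → ∀ σ, D.Vis F σ → (0 ≤ σ.1.2 ∧ σ.1.2 ≤ D.h) := by
    rintro F hF σ ⟨k, hk, rfl⟩
    have := clu_inR hD hF (walk_clu hD hF hk).1
    unfold inR at this
    exact this.2
  rcases htri with h0 | h0 | h0
  · refine key D b K _ (boxes 0 K) (-(2 * (b : ℤ))) hD hb hK
      (walls_zero hD hb hl hr (by nlinarith)) (boxes_card hK) ?_
    rintro F hF ⟨hW1, hW2⟩ ⟨⟨x, y⟩, c⟩ hv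
    have g1 := left0 hD hF (by omega) (by omega) (by omega) hW1 hv
    have g2 := right0 hD hF (by omega) (by omega) (by omega) hW2 hv
    have g3 := hin F hF _ hv
    simp only at g1 g2 g3
    refine boxes_cover hb (t := 0) (h := D.h) (by simp) (by push_cast; omega) g3 hc1 (by omega) ?_ ?_
    · push_cast; nlinarith
    · left; constructor <;> omega
  · obtain ⟨i0, hi0, hi1⟩ := box_of hb (x := D.t) (by omega)
    refine key D b K _ (boxes i0 K) (-(2 * (b : ℤ))) hD hb hK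
      (walls_pos hb h0 hh hl hr2 (by nlinarith) (by nlinarith)) (boxes_card hK) ?_
    rintro F hF ⟨⟨hW1, hW2, hW3⟩, hW4⟩ ⟨⟨x, y⟩, c⟩ hv
    have g1 := left1 hD hF hb' h0 hW1 hW2 hW3 hv
    have g2 := right0 hD hF (by omega) (by omega) (by omega) hW4 hv
    have g3 := hin F hF _ hv
    simp only at g1 g2 g3
    refine boxes_cover hb (t := D.t) (h := D.h) hi0 hi1 g3 hc1 (by omega) ?_ ?_
    · push_cast; nlinarith
    · omega
  · refine key D b K _ (boxes 0 K) (D.t - 2 * (b : ℤ)) hD hb hK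
      (walls_neg hb h0 hh hl2 hr (by nlinarith) (by nlinarith)) (boxes_card hK) ?_
    rintro F hF ⟨hW1, hW2, hW3, hW4⟩ ⟨⟨x, y⟩, c⟩ hv
    have g1 := left0 hD hF (by omega) (by omega) (by omega) hW1 hv
    have g2 := right1 hD hF hb' h0 hh hW2 hW3 hW4 hv
    have g3 := hin F hF _ hv
    simp only at g1 g2 g3
    refine boxes_cover hb (t := 0) (h := D.h) (by simp) (by push_cast; omega) g3 hc1 (by omega) ?_ ?_
    · push_cast; nlinarith
    · omega

end Pool.Agent.L5helper97.DL
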