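import Pool.Agent.Y858.EV.FtLat
import Pool.Agent.H984R4.NP.Walk
import Pool.Agent.H984R4.NP.Det

/-!
The path is fast with a small probability only.
-/

set_option autoImplicit false

namespace Pool.Agent.L5helper97.DL

open H974 Finset H342P H984P H984N Pool.Agent.Y41.EV Pool.Agent.Y858.EV

theorem sd_walk {D : Dm} {F : Finset Edg} (k l : ℕ) :
    sd (D.walk F k).1 (D.walk F (k + l)).1 ≤ l := by
  induction l with
  | zero => rw [Nat.add_zero, det_sd_self]; simp
  | succ l ih =>
    have h1 := walk_step D F (k + l)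
    have h2 := det_sd_tri (D.walk F k).1 (D.walk F (k + l)).1 (D.walk F (k + (l + 1))).1
    rw [show k + (l + 1) = k + l + 1 by ring] at h2 ⊢
    push_cast
    omega

theorem sd_ends {D : Dm} (hD : D.Ok) {F : Finset Edg} (hF : F ⊆ D.edges) :
    D.h ≤ sd (D.walk F 0).1 (D.walk F (D.len F)).1 := by
  rw [walk_len hD hF]
  have e : (D.walk F 0).1 = (D.t, D.h) := rfl
  rw [e, det_sd_eq]
  unfold Dm.stop
  simp only
  have := hD.h_pos
  omega

/-- the number of steps is at least the height -/
theorem len_ge {D : Dm} (hD : D.Ok) {F : Finset Edg} (hF : F ⊆ D.edges) : D.h ≤ D.len F := by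
  have h1 := sd_ends hD hF
  have h2 := sd_walk (D := D) (F := F) 0 (D.len F)
  rw [Nat.zero_add] at h2
  omega

/-- if the path is fast then all times are fast -/
theorem fast_all {D : Dm} (hD : D.Ok) {F : Finset Edg} (hF : F ⊆ D.edges) {m N : ℕ}
    (hN : D.len F ≤ N) (hm : 2 * (m : ℤ) ≤ D.h) : FastT D F m N = D.len F + 1 := by
  classical
  unfold FastT
  rw [filter_true_of_mem, card_range]
  intro t ht
  rw [mem_range] at ht
  have h1 := sd_ends hD hF
  have h2 := det_sd_tri (D.walk F 0).1 (D.walk F t).1 (D.walk F (D.len F)).1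
  rcases le_or_gt (m : ℤ) (sd (D.walk F 0).1 (D.walk F t).1) with h3 | h3
  · exact ⟨0, by omega, by omega, by omega, h3⟩
  · refine ⟨D.len F, le_rfl, by omega, by omega, ?_⟩
    rw [det_sd_comm]
    omega

/-- one dyadic scale -/
theorem dyadic {D : Dm} (hD : D.Ok) {m : ℕ} (hm : 2 * (m : ℤ) ≤ D.h) {M : ℝ} (hM : 0 < M) :
    P D.edges (fun F => M / 2 < (D.len F : ℝ) ∧ (D.len F : ℝ) ≤ M) ≤
      E D.edges (fun F => (FastT D F m ⌊M⌋₊ : ℝ)) / (M / 2) := by
  refine pr_le_ex' two_ok (by positivity) (fun F => by positivity) ?_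
  rintro F hF ⟨h1, h2⟩
  rw [fast_all hD hF (Nat.le_floor h2) hm]
  push_cast
  linarith

theorem all_at {D : Dm} (hD : D.Ok) {m : ℕ} (hm : 2 * (m : ℤ) ≤ D.h) {M b : ℝ} (hb : 0 < b)
    (hbD : b ≤ D.h) :
    P D.edges (fun F => (D.len F : ℝ) ≤ M) ≤
      E D.edges (fun F => (FastT D F m ⌊M⌋₊ : ℝ)) / b := by
  refine pr_le_ex' two_ok hb (fun F => by positivity) ?_
  rintro F hF h2
  rw [fast_all hD hF (Nat.le_floor h2) hm]
  have h3 : (D.h : ℝ) ≤ D.len F := by exact_mod_cast len_ge hD hF
  push_cast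
  linarith

theorem split {D : Dm} {M : ℝ} : P D.edges (fun F => (D.len F : ℝ) ≤ M) ≤
    P D.edges (fun F => M / 2 < (D.len F : ℝ) ∧ (D.len F : ℝ) ≤ M) +
      P D.edges (fun F => (D.len F : ℝ) ≤ M / 2) := by
  unfold P Pr
  rw [← Ex_add]
  refine Ex_mono two_ok fun F _ => ?_
  by_cases h1 : (D.len F : ℝ) ≤ M / 2
  · have h2 := ind_nonneg (M / 2 < (D.len F : ℝ) ∧ (D.len F : ℝ) ≤ M)
    have h3 := ind_le_one ((D.len F : ℝ) ≤ M)
    rw [ind_of h1]
    linarith
  · rw [ind_not_of h1, add_zero]
    exact ind_mono fun h => ⟨not_le.mp h1, h⟩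

/-- the recursion over the dyadic scales -/
theorem recur {f v : ℝ → ℝ} {L β C : ℝ} (hL : 0 < L) (hβ : 0 < β) (hC : 0 < C)
    (hf1 : ∀ M, f M ≤ 1) (h0 : ∀ M, M < L → f M ≤ 0) (hv2 : ∀ M, 0 < M → 2 * v M ≤ v (M / 2))
    (hstep : ∀ M, 0 < M → 1 ≤ v M → f M ≤ C * Real.exp (-(β * v M)) + f (M / 2))
    {M : ℝ} (hM : 0 < M) :
    f M ≤ max (2 * C) (Real.exp (β / 2 * max 1 (2 / β))) * Real.exp (-(β / 2 * v M)) := by
  obtain ⟨K, hK⟩ : ∃ K, K = max (2 * C) (Real.exp (β / 2 * max 1 (2 / β))) := ⟨_, rfl⟩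
  have hK1 : 2 * C ≤ K := by rw [hK]; exact le_max_left _ _
  have hK2 : Real.exp (β / 2 * max 1 (2 / β)) ≤ K := by rw [hK]; exact le_max_right _ _
  have hK0 : 0 < K := by linarith
  rw [← hK]
  have key : ∀ k : ℕ, ∀ M : ℝ, 0 < M → M < 2 ^ k * L → f M ≤ K * Real.exp (-(β / 2 * v M)) := by
    intro k
    induction k with
    | zero =>
      intro M hM hML
      rw [pow_zero, one_mul] at hML
      exact (h0 M hML).trans (by positivity)
    | succ k ih =>
      intro M hM hML
      by_cases hv : v M < max 1 (2 / β)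
      · refine (hf1 M).trans ?_
        have h1 : Real.exp (β / 2 * v M) ≤ K := by
          refine le_trans (Real.exp_le_exp.mpr ?_) hK2
          exact mul_le_mul_of_nonneg_left hv.le (by positivity)
        rw [Real.exp_neg, ← div_eq_mul_inv, le_div_iff₀ (Real.exp_pos _), one_mul]
        exact h1
      · push Not at hv
        have hv1 : 1 ≤ v M := (le_max_left _ _).trans hv
        have hv3 : 2 / β ≤ v M := (le_max_right _ _).trans hv
        have h1 := hstep M hM hv1
        have h2 := ih (M / 2) (by positivity) (by rw [pow_succ] at hML; linarith)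
        have h3 : Real.exp (-(β / 2 * v (M / 2))) ≤
            Real.exp (-(β / 2 * v M)) * Real.exp (-1) := by
          rw [← Real.exp_add]
          refine Real.exp_le_exp.mpr ?_
          have h4 := hv2 M hM
          have h5 : 1 ≤ β / 2 * v M := by
            rw [div_le_iff₀ hβ] at hv3
            linarith
          have h6 : β / 2 * (2 * v M) ≤ β / 2 * v (M / 2) :=
            mul_le_mul_of_nonneg_left h4 (by positivity)
          linarith
        have h4 : Real.exp (-1) ≤ 1 / 2 := by
          rw [Real.exp_neg]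
          have := Real.exp_one_gt_d9
          rw [inv_le_comm₀ (Real.exp_pos _) (by norm_num)]
          linarith
        have h5 : Real.exp (-(β * v M)) ≤ Real.exp (-(β / 2 * v M)) := by
          refine Real.exp_le_exp.mpr ?_
          have : β / 2 * v M ≤ β * v M :=
            mul_le_mul_of_nonneg_right (by linarith) (by linarith)
          linarith
        have h6 := Real.exp_pos (-(β / 2 * v M))
        have h7 : f (M / 2) ≤ K * (Real.exp (-(β / 2 * v M)) * (1 / 2)) := by
          refine h2.trans (mul_le_mul_of_nonneg_left (h3.trans ?_) hK0.le)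
          exact mul_le_mul_of_nonneg_left h4 h6.le
        have h8 : C * Real.exp (-(β * v M)) ≤ K / 2 * Real.exp (-(β / 2 * v M)) := by
          refine (mul_le_mul_of_nonneg_left h5 hC.le).trans ?_
          exact mul_le_mul_of_nonneg_right (by linarith) h6.le
        linarith
  obtain ⟨k, hk⟩ := pow_unbounded_of_one_lt (M / L) (by norm_num : (1 : ℝ) < 2)
  exact key k M hM (by rwa [div_lt_iff₀ hL] at hk)

/-- The path is fast with a small probability only. -/
theorem up_len (hfm : FM) {κ : ℝ} (hκ : 0 < κ) : ∃ c C n0 : ℝ, 0 < c ∧ 0 < C ∧ 0 < n0 ∧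
    ∀ (D : Dm) (n : ℝ), D.Shape κ n → n0 ≤ n → ∀ M : ℝ, 0 < M →
      P D.edges (fun F => (D.len F : ℝ) ≤ M) ≤
        C * Real.exp (-(c * (n ^ (7/4 : ℝ) / M) ^ (4/3 : ℝ))) := by
  obtain ⟨a, ha, hFM⟩ := hfm
  obtain ⟨C1', hC1', h1'⟩ := hFM κ hκ
  -- a constant at least one
  obtain ⟨C1, hC1def⟩ : ∃ C1, C1 = max C1' 1 := ⟨_, rfl⟩
  have hC1ge : C1' ≤ C1 := by rw [hC1def]; exact le_max_left _ _
  have hC11 : 1 ≤ C1 := by rw [hC1def]; exact le_max_right _ _
  have hC1 : 0 < C1 := by linarith
  obtain ⟨κ1, hκ1⟩ : ∃ κ1, κ1 = min (κ / 2) (1 / 4) := ⟨_, rfl⟩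
  have hκ10 : 0 < κ1 := by rw [hκ1]; exact lt_min (by positivity) (by norm_num)
  have hκ1a : κ1 ≤ κ / 2 := by rw [hκ1]; exact min_le_left _ _
  have hκ1b : κ1 ≤ 1 / 4 := by rw [hκ1]; exact min_le_right _ _
  obtain ⟨β, hβ⟩ : ∃ β, β = a / (2 * C1) := ⟨_, rfl⟩
  have hβ0 : 0 < β := by rw [hβ]; positivity
  have hβa : β ≤ a / 2 := by
    rw [hβ, div_le_div_iff₀ (by positivity) (by norm_num)]
    nlinarith
  obtain ⟨C3, hC3⟩ : ∃ C3, C3 = 2 * C1 * (2 / κ1) ^ (7/4 : ℝ) * (2 / a) := ⟨_, rfl⟩
  obtain ⟨C6, hC6⟩ : ∃ C6, C6 = C1 / κ * (2 / κ1) * (2 * C1 / a) := ⟨_, rfl⟩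
  have hC30 : 0 < C3 := by rw [hC3]; positivity
  have hC60 : 0 < C6 := by rw [hC6]; positivity
  refine ⟨β / 2 * (κ1 / 2) ^ (7/3 : ℝ), max (2 * max C3 C6) (Real.exp (β / 2 * max 1 (2 / β))),
    max (2 * C1 / κ1 + 1) (2 / κ1), by positivity, lt_max_of_lt_right (Real.exp_pos _),
    lt_max_of_lt_right (by positivity), ?_⟩
  intro D n hsh hn M hM
  have hD := hsh.ok
  have hn1 : 2 * C1 / κ1 + 1 ≤ n := (le_max_left _ _).trans hn
  have hn2 : 2 / κ1 ≤ n := (le_max_right _ _).trans hn
  have hn01 : 1 ≤ n := by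
    have : 0 < 2 * C1 / κ1 := by positivity
    linarith
  have hn0 : 0 < n := by linarith
  obtain ⟨m, hm⟩ : ∃ m : ℕ, m = ⌊κ1 * n⌋₊ := ⟨_, rfl⟩
  have hm1 : (m : ℝ) ≤ κ1 * n := by rw [hm]; exact Nat.floor_le (by positivity)
  have hk2 : 2 ≤ κ1 * n := by
    rw [div_le_iff₀ hκ10] at hn2; linarith
  have hm2 : κ1 * n / 2 ≤ m := by
    have h1 : κ1 * n < m + 1 := by rw [hm]; exact Nat.lt_floor_add_one _
    linarith
  have hmC : C1 ≤ m := by
    have h1 : 2 * C1 / κ1 ≤ n := by linarith
    rw [div_le_iff₀ hκ10] at h1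
    linarith
  have hm0 : (0 : ℝ) < m := by linarith
  have hm01 : (1 : ℝ) ≤ m := by linarith
  have hmh : 2 * (m : ℤ) ≤ D.h := by
    have h1 := hsh.h_ge
    have h2 : 2 * (m : ℝ) ≤ D.h := by nlinarith
    exact_mod_cast h2
  have h4m : 4 * (m : ℝ) ≤ n := by nlinarith
  obtain ⟨s, hs⟩ : ∃ s : ℝ, s = (m : ℝ) ^ (7/4 : ℝ) := ⟨_, rfl⟩
  have hs0 : 0 < s := by rw [hs]; exact Real.rpow_pos_of_pos hm0 _
  have hns : n ^ (7/4 : ℝ) ≤ (2 / κ1) ^ (7/4 : ℝ) * s := by
    rw [hs, ← Real.mul_rpow (by positivity) hm0.le]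
    refine Real.rpow_le_rpow hn0.le ?_ (by norm_num)
    rw [div_mul_eq_mul_div, le_div_iff₀ hκ10]
    linarith
  -- the first moment
  have hmom : ∀ M : ℝ, 0 < M → 1 ≤ s / M → C1 * (s / M) ^ (4/3 : ℝ) ≤ m →
      E D.edges (fun F => (FastT D F m ⌊M⌋₊ : ℝ)) ≤
        C1 * n ^ (7/4 : ℝ) * Real.exp (-(a * (s / M) ^ (4/3 : ℝ))) := by
    intro M hM h1 h2
    have hx : (M / s) ^ (-(4/3) : ℝ) = (s / M) ^ (4/3 : ℝ) := by
      rw [Real.rpow_neg (by positivity), ← Real.inv_rpow (by positivity), inv_div]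
    have h3 := h1' D n (M / s) m ⌊M⌋₊ hsh (by positivity)
      (by rw [div_le_one hs0]; rwa [one_le_div hM] at h1)
      (by
        rw [hx]
        refine le_trans ?_ h2
        exact mul_le_mul_of_nonneg_right hC1ge (by positivity)) h4m
      (by
        rw [← hs, div_mul_cancel₀ _ hs0.ne']
        exact Nat.floor_le hM.le)
    rw [hx] at h3
    refine h3.trans ?_
    have h5 : 0 ≤ n ^ (7/4 : ℝ) := by positivity
    have h6 := Real.exp_pos (-(a * (s / M) ^ (4/3 : ℝ)))
    exact mul_le_mul_of_nonneg_right (mul_le_mul_of_nonneg_right hC1ge h5) h6.le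
  have hrec := recur (f := fun M => P D.edges (fun F => (D.len F : ℝ) ≤ M))
    (v := fun M => (s / M) ^ (4/3 : ℝ)) (L := κ * n) (β := β) (C := max C3 C6) (by positivity)
    hβ0 (lt_max_of_lt_left hC30) (fun M => Pr_le_one two_ok _ _) ?_ ?_ ?_ hM
  · refine hrec.trans ?_
    refine mul_le_mul_of_nonneg_left (Real.exp_le_exp.mpr ?_)
      ((Real.exp_pos _).le.trans (le_max_right _ _))
    have h1 : (κ1 / 2) ^ (7/3 : ℝ) * (n ^ (7/4 : ℝ) / M) ^ (4/3 : ℝ) ≤ (s / M) ^ (4/3 : ℝ) := by
      have e1 : (κ1 / 2) ^ (7/3 : ℝ) = ((κ1 / 2) ^ (7/4 : ℝ)) ^ (4/3 : ℝ) := by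
        rw [← Real.rpow_mul (by positivity)]; norm_num
      rw [e1, ← Real.mul_rpow (by positivity) (by positivity)]
      refine Real.rpow_le_rpow (by positivity) ?_ (by norm_num)
      rw [← mul_div_assoc]
      refine div_le_div_of_nonneg_right ?_ hM.le
      rw [hs, ← Real.mul_rpow (by positivity) hn0.le]
      exact Real.rpow_le_rpow (by positivity) (by linarith) (by norm_num)
    have h2 := mul_le_mul_of_nonneg_left h1 (by positivity : (0:ℝ) ≤ β / 2)
    linarith
  · intro M hML
    have h1 : P D.edges (fun F => (D.len F : ℝ) ≤ M) = P D.edges (fun _ => False) := by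
      refine Pr_congr fun F hF => ?_
      simp only [iff_false, not_le]
      have h2 := hsh.h_ge
      have h3 : (D.h : ℝ) ≤ D.len F := by exact_mod_cast len_ge hD hF
      linarith
    rw [h1]
    unfold P Pr
    simp only [ind_not_of not_false, Ex_const]
    exact le_refl _
  · intro M hM
    have e : s / (M / 2) = 2 * (s / M) := by field_simp
    rw [e, Real.mul_rpow (by norm_num) (by positivity)]
    refine mul_le_mul_of_nonneg_right ?_ (by positivity)
    calc (2 : ℝ) = 2 ^ (1 : ℝ) := (Real.rpow_one 2).symm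
      _ ≤ 2 ^ (4/3 : ℝ) := Real.rpow_le_rpow_of_exponent_le (by norm_num) (by norm_num)
  · intro M hM hv
    obtain ⟨v, hvd⟩ : ∃ v, v = (s / M) ^ (4/3 : ℝ) := ⟨_, rfl⟩
    rw [← hvd] at hv ⊢
    have hv0 : 0 < v := by linarith
    have hsM : 1 ≤ s / M := by
      by_contra hcon
      push Not at hcon
      have : v < 1 := by
        rw [hvd]; exact Real.rpow_lt_one (by positivity) hcon (by norm_num)
      linarith
    have hnn : 0 ≤ P D.edges (fun F => (D.len F : ℝ) ≤ M / 2) := Pr_nonneg two_ok _ _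
    by_cases hc : C1 * v ≤ m
    · -- one dyadic scale
      refine (split (D := D) (M := M)).trans (add_le_add_left ?_ _)
      have h1 := dyadic hD hmh hM
      have h2 := hmom M hM hsM (by rw [← hvd]; exact hc)
      rw [← hvd] at h2
      refine h1.trans ((div_le_div_of_nonneg_right h2 (by positivity)).trans ?_)
      have h3 : C1 * n ^ (7/4 : ℝ) * Real.exp (-(a * v)) / (M / 2) ≤
          2 * C1 * (2 / κ1) ^ (7/4 : ℝ) * v * Real.exp (-(a * v)) := by
        have h4 : n ^ (7/4 : ℝ) / M ≤ (2 / κ1) ^ (7/4 : ℝ) * v := by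
          have h5 : n ^ (7/4 : ℝ) / M ≤ (2 / κ1) ^ (7/4 : ℝ) * (s / M) := by
            rw [← mul_div_assoc]
            exact div_le_div_of_nonneg_right hns hM.le
          refine h5.trans (mul_le_mul_of_nonneg_left ?_ (by positivity))
          rw [hvd]
          calc s / M = (s / M) ^ (1 : ℝ) := (Real.rpow_one _).symm
            _ ≤ _ := Real.rpow_le_rpow_of_exponent_le hsM (by norm_num)
        have e : C1 * n ^ (7/4 : ℝ) * Real.exp (-(a * v)) / (M / 2) =
            2 * C1 * (n ^ (7/4 : ℝ) / M) * Real.exp (-(a * v)) := by field_simp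
        rw [e]
        refine mul_le_mul_of_nonneg_right ?_ (Real.exp_pos _).le
        calc 2 * C1 * (n ^ (7/4 : ℝ) / M) ≤ 2 * C1 * ((2 / κ1) ^ (7/4 : ℝ) * v) :=
              mul_le_mul_of_nonneg_left h4 (by positivity)
          _ = _ := by ring
      refine h3.trans ?_
      have h5 : v ≤ 2 / a * Real.exp (a / 2 * v) := by
        have h6 := Real.add_one_le_exp (a / 2 * v)
        rw [div_mul_eq_mul_div, le_div_iff₀ ha]
        nlinarith
      have h6 : Real.exp (a / 2 * v) * Real.exp (-(a * v)) ≤ Real.exp (-(β * v)) := by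
        rw [← Real.exp_add]
        refine Real.exp_le_exp.mpr ?_
        have := mul_le_mul_of_nonneg_right hβa hv0.le
        linarith
      have h7 := Real.exp_pos (-(a * v))
      have h8 := Real.exp_pos (-(β * v))
      have hk : 0 ≤ 2 * C1 * (2 / κ1) ^ (7/4 : ℝ) := by positivity
      calc 2 * C1 * (2 / κ1) ^ (7/4 : ℝ) * v * Real.exp (-(a * v)) ≤
            2 * C1 * (2 / κ1) ^ (7/4 : ℝ) * (2 / a * Real.exp (a / 2 * v)) *
              Real.exp (-(a * v)) :=
            mul_le_mul_of_nonneg_right (mul_le_mul_of_nonneg_left h5 hk) h7.le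
        _ = C3 * (Real.exp (a / 2 * v) * Real.exp (-(a * v))) := by rw [hC3]; ring
        _ ≤ C3 * Real.exp (-(β * v)) := mul_le_mul_of_nonneg_left h6 hC30.le
        _ ≤ max C3 C6 * Real.exp (-(β * v)) :=
            mul_le_mul_of_nonneg_right (le_max_left _ _) h8.le
    · -- below the smallest scale
      push Not at hc
      by_cases hML : M < κ * n
      · have h1 : P D.edges (fun F => (D.len F : ℝ) ≤ M) ≤
            P D.edges (fun F => (D.len F : ℝ) ≤ M / 2) := by
          refine Pr_mono two_ok fun F hF h2 => ?_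
          exfalso
          have h3 := hsh.h_ge
          have h4 : (D.h : ℝ) ≤ D.len F := by exact_mod_cast len_ge hD hF
          linarith
        have h8 := Real.exp_pos (-(β * v))
        have : 0 ≤ max C3 C6 * Real.exp (-(β * v)) :=
          mul_nonneg (hC30.le.trans (le_max_left _ _)) h8.le
        linarith
      · push Not at hML
        obtain ⟨M', hM'⟩ : ∃ M', M' = s * (C1 / m) ^ (3/4 : ℝ) := ⟨_, rfl⟩
        have hM'0 : 0 < M' := by rw [hM']; positivity
        have hsM' : s / M' = ((m : ℝ) / C1) ^ (3/4 : ℝ) := by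
          rw [hM', ← inv_div (m : ℝ) C1, Real.inv_rpow (by positivity)]
          field_simp
        have hv' : (s / M') ^ (4/3 : ℝ) = m / C1 := by
          rw [hsM', ← Real.rpow_mul (by positivity)]
          norm_num
        have hsM1 : 1 ≤ s / M' := by
          rw [hsM']
          exact Real.one_le_rpow (by rwa [one_le_div hC1]) (by norm_num)
        have h2 := hmom M' hM'0 hsM1 (by rw [hv']; field_simp; exact le_refl _)
        rw [hv'] at h2
        have hMM : M ≤ M' := by
          by_contra hcon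
          push Not at hcon
          have h3 : v ≤ m / C1 := by
            rw [hvd, ← hv']
            refine Real.rpow_le_rpow (by positivity) ?_ (by norm_num)
            exact div_le_div_of_nonneg_left hs0.le hM'0 hcon.le
          rw [le_div_iff₀ hC1] at h3
          linarith
        have h3 := all_at hD hmh (M := M') (b := κ * n) (by positivity) hsh.h_ge
        have h4 : P D.edges (fun F => (D.len F : ℝ) ≤ M) ≤
            P D.edges (fun F => (D.len F : ℝ) ≤ M') :=
          Pr_mono two_ok fun F _ h => h.trans hMM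
        have hvm : v ≤ m := by
          have h5 : s / M ≤ (m : ℝ) ^ (3/4 : ℝ) := by
            rw [div_le_iff₀ hM]
            have e : s = (m : ℝ) ^ (3/4 : ℝ) * m := by
              rw [hs]
              nth_rewrite 3 [← Real.rpow_one (m : ℝ)]
              rw [← Real.rpow_add hm0]
              norm_num
            rw [e]
            refine mul_le_mul_of_nonneg_left ?_ (by positivity)
            have : κ1 * n ≤ κ * n := mul_le_mul_of_nonneg_right (by linarith) hn0.le
            linarith
          rw [hvd]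
          calc (s / M) ^ (4/3 : ℝ) ≤ ((m : ℝ) ^ (3/4 : ℝ)) ^ (4/3 : ℝ) :=
                Real.rpow_le_rpow (by positivity) h5 (by norm_num)
            _ = m := by rw [← Real.rpow_mul hm0.le]; norm_num
        have h5 : E D.edges (fun F => (FastT D F m ⌊M'⌋₊ : ℝ)) / (κ * n) ≤
            C6 * Real.exp (-(β * v)) := by
          have h6 : C1 * n ^ (7/4 : ℝ) * Real.exp (-(a * (m / C1))) / (κ * n) ≤
              C1 / κ * n * Real.exp (-(a * (m / C1))) := by
            have h7 : n ^ (7/4 : ℝ) ≤ n * n := by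
              calc n ^ (7/4 : ℝ) ≤ n ^ (2 : ℝ) :=
                    Real.rpow_le_rpow_of_exponent_le hn01 (by norm_num)
                _ = n * n := by rw [Real.rpow_two]; ring
            have h8 := Real.exp_pos (-(a * (m / C1)))
            rw [div_le_iff₀ (by positivity)]
            calc C1 * n ^ (7/4 : ℝ) * Real.exp (-(a * (m / C1))) ≤
                  C1 * (n * n) * Real.exp (-(a * (m / C1))) :=
                  mul_le_mul_of_nonneg_right (mul_le_mul_of_nonneg_left h7 hC1.le) h8.le
              _ = _ := by field_simp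
          refine (div_le_div_of_nonneg_right h2 (by positivity)).trans (h6.trans ?_)
          have h7 : n ≤ 2 / κ1 * m := by
            rw [div_mul_eq_mul_div, le_div_iff₀ hκ10]
            linarith
          have h8 : (m : ℝ) ≤ 2 * C1 / a * Real.exp (β * m) := by
            have h9 := Real.add_one_le_exp (β * (m : ℝ))
            have h10 : 2 * C1 / a * (β * m) = m := by
              rw [hβ]; field_simp
            have h11 : 2 * C1 / a * (β * m) ≤ 2 * C1 / a * Real.exp (β * m) :=
              mul_le_mul_of_nonneg_left (by linarith) (by positivity)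
            linarith
          have h9 : Real.exp (β * m) * Real.exp (-(a * (m / C1))) ≤ Real.exp (-(β * v)) := by
            rw [← Real.exp_add]
            refine Real.exp_le_exp.mpr ?_
            have h10 : a * (m / C1) = 2 * (β * m) := by rw [hβ]; field_simp
            have h11 := mul_le_mul_of_nonneg_left hvm hβ0.le
            rw [h10]
            linarith
          have h10 := Real.exp_pos (-(a * (m / C1)))
          calc C1 / κ * n * Real.exp (-(a * (m / C1))) ≤
                C1 / κ * (2 / κ1 * (2 * C1 / a * Real.exp (β * m))) *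
                  Real.exp (-(a * (m / C1))) := by
                refine mul_le_mul_of_nonneg_right (mul_le_mul_of_nonneg_left
                  (h7.trans (mul_le_mul_of_nonneg_left h8 (by positivity))) (by positivity)) h10.le
            _ = C6 * (Real.exp (β * m) * Real.exp (-(a * (m / C1)))) := by rw [hC6]; ring
            _ ≤ C6 * Real.exp (-(β * v)) := mul_le_mul_of_nonneg_left h9 hC60.le
        have h8 := Real.exp_pos (-(β * v))
        have h9 : C6 * Real.exp (-(β * v)) ≤ max C3 C6 * Real.exp (-(β * v)) :=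
          mul_le_mul_of_nonneg_right (le_max_right _ _) h8.le
        linarith

end Pool.Agent.L5helper97.DL
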