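import Pool.Agent.L5helper97.DL.LowPr
import Pool.Agent.L5helper97.DL.UpLen
import Pool.Agent.TH992.T.Final

/-!
The lower tail of the duration of the exploration path.
-/

set_option autoImplicit false

namespace Pool.Agent.L5helper97.DL

open H974 Finset H342P H984P H984N Pool.Agent.Y41.EV TH992.T MeasureTheory Filter Topology

/-- the corridor fits into the rectangle -/
theorem geo (R : Rect) : ∃ ρ : ℝ, 0 < ρ ∧ ∀ (δ : ℝ) (b : ℕ), 0 < δ → δ ≤ ρ → (b : ℝ) ≤ ρ / δ →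
    2 * (b : ℤ) + 1 ≤ (R.dm δ).h ∧ (R.dm δ).l ≤ -(2 * b) ∧ (R.dm δ).l ≤ (R.dm δ).t - 2 * b ∧
      2 * b < (R.dm δ).r ∧ (R.dm δ).t + 2 * b < (R.dm δ).r ∧
      ((R.dm δ).t = 0 ∨ (b : ℤ) + 1 ≤ (R.dm δ).t ∨ (R.dm δ).t ≤ -(b : ℤ) - 1) := by
  have hA := R.hA
  have hB := R.hB
  have hH := R.hH
  have ht1 : 0 < R.t + R.A := by linarith [R.ht1]
  have ht2 : 0 < R.B - R.t := by linarith [R.ht2]
  obtain ⟨τ, hτ⟩ : ∃ τ : ℝ, τ = if R.t = 0 then 1 else |R.t| := ⟨_, rfl⟩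
  have hτ0 : 0 < τ := by
    rw [hτ]
    split_ifs with h
    · norm_num
    · exact abs_pos.2 h
  obtain ⟨w, hw⟩ : ∃ w, w = min R.A (min R.B (min R.H (min (R.t + R.A) (min (R.B - R.t) τ)))) :=
    ⟨_, rfl⟩
  have hw0 : 0 < w := by
    rw [hw]
    exact lt_min hA (lt_min hB (lt_min hH (lt_min ht1 (lt_min ht2 hτ0))))
  have w1 : w ≤ R.A := by rw [hw]; exact min_le_left _ _
  have w2 : w ≤ R.B := by rw [hw]; exact (min_le_right _ _).trans (min_le_left _ _)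
  have w3 : w ≤ R.H := by
    rw [hw]; exact (min_le_right _ _).trans ((min_le_right _ _).trans (min_le_left _ _))
  have w4 : w ≤ R.t + R.A := by
    rw [hw]
    exact (min_le_right _ _).trans ((min_le_right _ _).trans ((min_le_right _ _).trans
      (min_le_left _ _)))
  have w5 : w ≤ R.B - R.t := by
    rw [hw]
    exact (min_le_right _ _).trans ((min_le_right _ _).trans ((min_le_right _ _).trans
      ((min_le_right _ _).trans (min_le_left _ _))))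
  have w6 : w ≤ τ := by
    rw [hw]
    exact (min_le_right _ _).trans ((min_le_right _ _).trans ((min_le_right _ _).trans
      ((min_le_right _ _).trans (min_le_right _ _))))
  refine ⟨w / 8, by positivity, fun δ b hδ hδ' hb => ?_⟩
  have hb' : 8 * (b : ℝ) ≤ w / δ := by
    have : w / 8 / δ = w / δ / 8 := by ring
    rw [this] at hb
    linarith
  have h8 : 8 ≤ w / δ := by
    rw [le_div_iff₀ hδ]; linarith
  have q : ∀ y : ℝ, w ≤ y → 4 * (b : ℝ) + 4 ≤ y / δ := by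
    intro y hy
    have : w / δ ≤ y / δ := div_le_div_of_nonneg_right hy hδ.le
    linarith
  have q1 := q _ w1
  have q2 := q _ w2
  have q3 := q _ w3
  have q4 := q _ w4
  have q5 := q _ w5
  have e4 : (R.t + R.A) / δ = R.t / δ + R.A / δ := by ring
  have e5 : (R.B - R.t) / δ = R.B / δ - R.t / δ := by ring
  rw [e4] at q4
  rw [e5] at q5
  have fl := Int.floor_le (-(R.A / δ))
  have fB := Int.le_ceil (R.B / δ)
  have fH := Int.le_ceil (R.H / δ)
  have ft := Int.floor_le (R.t / δ)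
  have ft' := Int.lt_floor_add_one (R.t / δ)
  refine ⟨?_, ?_, ?_, ?_, ?_, ?_⟩
  · have : ((2 * (b : ℤ) + 1 : ℤ) : ℝ) ≤ ((⌈R.H / δ⌉ - 2 : ℤ) : ℝ) := by push_cast; linarith
    exact_mod_cast this
  · have : ((⌊-(R.A / δ)⌋ + 1 : ℤ) : ℝ) ≤ ((-(2 * b) : ℤ) : ℝ) := by push_cast; linarith
    exact_mod_cast this
  · have : ((⌊-(R.A / δ)⌋ + 1 : ℤ) : ℝ) ≤ ((⌊R.t / δ⌋ - 2 * b : ℤ) : ℝ) := by
      push_cast; linarith
    exact_mod_cast this
  · have : ((2 * b : ℤ) : ℝ) < ((⌈R.B / δ⌉ - 1 : ℤ) : ℝ) := by push_cast; linarith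
    exact_mod_cast this
  · have : ((⌊R.t / δ⌋ + 2 * b : ℤ) : ℝ) < ((⌈R.B / δ⌉ - 1 : ℤ) : ℝ) := by push_cast; linarith
    exact_mod_cast this
  · by_cases h0 : R.t = 0
    · left
      show ⌊R.t / δ⌋ = 0
      rw [h0, zero_div, Int.floor_zero]
    · right
      rw [hτ, if_neg h0] at w6
      rcases lt_or_gt_of_ne h0 with h1 | h1
      · right
        rw [abs_of_neg h1] at w6
        have q6 := q _ w6
        have e6 : -R.t / δ = -(R.t / δ) := by ring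
        rw [e6] at q6
        have : ((⌊R.t / δ⌋ : ℤ) : ℝ) ≤ ((-(b : ℤ) - 1 : ℤ) : ℝ) := by push_cast; linarith
        exact_mod_cast this
      · left
        rw [abs_of_pos h1] at w6
        have q6 := q _ w6
        have : (((b : ℤ) + 1 : ℤ) : ℝ) ≤ ((⌊R.t / δ⌋ : ℤ) : ℝ) := by push_cast; linarith
        exact_mod_cast this

/-- the lower tail at mesh `δ` -/
theorem final_of {C : ℝ} (hC : 0 < C) (hU : TwoUp C (1/4)) (hfm : FM) (R : Rect) :
    ∃ c C δ0 : ℝ, 0 < c ∧ 0 < C ∧ 0 < δ0 ∧ ∀ δ : ℝ, 0 < δ → δ ≤ δ0 →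
      (∀ F : Finset Edg, F ⊆ (R.dm δ).edges → c * δ ^ (3/4 : ℝ) ≤ R.time δ F) ∧
      (∀ x : ℝ, 0 < x → R.prob δ (fun F => R.time δ F ≤ x) ≤
        C * Real.exp (-(c * x ^ (-(4/3) : ℝ)))) ∧
      ∀ x : ℝ, C * δ ^ (3/4 : ℝ) ≤ x → x ≤ 1 →
        Real.exp (-(C * x ^ (-(4/3) : ℝ))) ≤ R.prob δ (fun F => R.time δ F ≤ x) := by
  obtain ⟨κ, S, δ1, hκ, hS, hδ1, -, hsh⟩ := R.shape
  obtain ⟨ρ, hρ, hgeo⟩ := geo R
  obtain ⟨θ, K2, hθ, hK2, hlow⟩ := low_len hC hU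
  obtain ⟨c1, C1, n0, hc1, hC1, hn0, hup⟩ := up_len hfm hκ
  obtain ⟨η, hη⟩ : ∃ η : ℝ, η = min (min ρ S) ((1 / (3 * θ * S)) ^ (4/3 : ℝ)) := ⟨_, rfl⟩
  have hη0 : 0 < η := by rw [hη]; exact lt_min (lt_min hρ hS) (by positivity)
  have hη1 : η ≤ ρ := by rw [hη]; exact (min_le_left _ _).trans (min_le_left _ _)
  have hη2 : η ≤ S := by rw [hη]; exact (min_le_left _ _).trans (min_le_right _ _)
  have hη3 : η ≤ (1 / (3 * θ * S)) ^ (4/3 : ℝ) := by rw [hη]; exact min_le_right _ _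
  have hη4 : 3 * θ * S * η ^ (3/4 : ℝ) ≤ 1 := by
    have h1 : η ^ (3/4 : ℝ) ≤ 1 / (3 * θ * S) := by
      calc η ^ (3/4 : ℝ) ≤ ((1 / (3 * θ * S)) ^ (4/3 : ℝ)) ^ (3/4 : ℝ) :=
            Real.rpow_le_rpow hη0.le hη3 (by norm_num)
        _ = 1 / (3 * θ * S) := by rw [← Real.rpow_mul (by positivity)]; norm_num
    rw [le_div_iff₀ (by positivity)] at h1
    linarith
  obtain ⟨cc, hcc⟩ : ∃ cc : ℝ, cc = min (κ * S) (c1 * S ^ (7/3 : ℝ)) := ⟨_, rfl⟩
  have hcc0 : 0 < cc := by rw [hcc]; exact lt_min (by positivity) (by positivity)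
  obtain ⟨CC, hCC⟩ : ∃ CC : ℝ, CC = max C1 (max (K2 * (6 * S / η)) ((2 / η) ^ (3/4 : ℝ))) :=
    ⟨_, rfl⟩
  have hCC1 : C1 ≤ CC := by rw [hCC]; exact le_max_left _ _
  have hCC2 : K2 * (6 * S / η) ≤ CC := by
    rw [hCC]; exact (le_max_left _ _).trans (le_max_right _ _)
  have hCC3 : (2 / η) ^ (3/4 : ℝ) ≤ CC := by
    rw [hCC]; exact (le_max_right _ _).trans (le_max_right _ _)
  have hCC0 : 0 < CC := by linarith
  refine ⟨cc, CC, min (min δ1 ρ) (min S (S / n0)), hcc0, hCC0,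
    lt_min (lt_min hδ1 hρ) (lt_min hS (by positivity)), fun δ hδ hδ' => ?_⟩
  have d1 : δ ≤ δ1 := hδ'.trans ((min_le_left _ _).trans (min_le_left _ _))
  have d2 : δ ≤ ρ := hδ'.trans ((min_le_left _ _).trans (min_le_right _ _))
  have d3 : δ ≤ S := hδ'.trans ((min_le_right _ _).trans (min_le_left _ _))
  have d4 : δ ≤ S / n0 := hδ'.trans ((min_le_right _ _).trans (min_le_right _ _))
  have hsh' := hsh δ hδ d1
  obtain ⟨n, hn⟩ : ∃ n : ℝ, n = S / δ := ⟨_, rfl⟩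
  rw [← hn] at hsh'
  have hn1 : 1 ≤ n := by rw [hn, le_div_iff₀ hδ]; linarith
  have hnn : n0 ≤ n := by
    rw [le_div_iff₀ hn0] at d4
    rw [hn, le_div_iff₀ hδ]
    linarith
  have hn' : 0 < n := by linarith
  have hD := hsh'.ok
  have hd : 0 < δ ^ (7/4 : ℝ) := Real.rpow_pos_of_pos hδ _
  have hd2 : 0 < δ ^ (-(7/4) : ℝ) := Real.rpow_pos_of_pos hδ _
  have e2 : δ ^ (7/4 : ℝ) * δ ^ (-(7/4) : ℝ) = 1 := by
    rw [← Real.rpow_add hδ]; norm_num
  have e34 : δ ^ (7/4 : ℝ) / δ = δ ^ (3/4 : ℝ) := by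
    rw [show (3/4 : ℝ) = 7/4 - 1 by norm_num, Real.rpow_sub hδ, Real.rpow_one]
  have htime : ∀ (F : Finset Edg) (x : ℝ), R.time δ F ≤ x ↔
      ((R.dm δ).len F : ℝ) ≤ x * δ ^ (-(7/4) : ℝ) := by
    intro F x
    unfold Rect.time
    constructor
    · intro h
      have h1 := mul_le_mul_of_nonneg_right h hd2.le
      have e : δ ^ (7/4 : ℝ) * ((R.dm δ).len F : ℝ) * δ ^ (-(7/4) : ℝ) =
          (δ ^ (7/4 : ℝ) * δ ^ (-(7/4) : ℝ)) * ((R.dm δ).len F : ℝ) := by ring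
      rw [e, e2, one_mul] at h1
      exact h1
    · intro h
      have h1 := mul_le_mul_of_nonneg_left h hd.le
      have e : δ ^ (7/4 : ℝ) * (x * δ ^ (-(7/4) : ℝ)) =
          (δ ^ (7/4 : ℝ) * δ ^ (-(7/4) : ℝ)) * x := by ring
      rw [e, e2, one_mul] at h1
      exact h1
  refine ⟨fun F hF => ?_, fun x hx => ?_, fun x hx1 hx2 => ?_⟩
  · unfold Rect.time
    have h1 : κ * n ≤ ((R.dm δ).len F : ℝ) := by
      have h2 : ((R.dm δ).h : ℝ) ≤ ((R.dm δ).len F : ℝ) := by exact_mod_cast len_ge hD hF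
      exact hsh'.h_ge.trans h2
    calc cc * δ ^ (3/4 : ℝ) ≤ κ * S * δ ^ (3/4 : ℝ) := by
          refine mul_le_mul_of_nonneg_right ?_ (Real.rpow_nonneg hδ.le _)
          rw [hcc]; exact min_le_left _ _
      _ = δ ^ (7/4 : ℝ) * (κ * n) := by rw [← e34, hn]; field_simp
      _ ≤ _ := mul_le_mul_of_nonneg_left h1 hd.le
  · have h1 := hup (R.dm δ) n hsh' hnn (x * δ ^ (-(7/4) : ℝ)) (by positivity)
    have h2 : R.prob δ (fun F => R.time δ F ≤ x) ≤
        P (R.dm δ).edges (fun F => ((R.dm δ).len F : ℝ) ≤ x * δ ^ (-(7/4) : ℝ)) :=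
      Pr_mono two_ok fun F _ h => (htime F x).1 h
    refine h2.trans (h1.trans ?_)
    have e3 : n ^ (7/4 : ℝ) / (x * δ ^ (-(7/4) : ℝ)) = S ^ (7/4 : ℝ) / x := by
      rw [hn, mesh_pow hS hδ]
      field_simp
    have e4 : (S ^ (7/4 : ℝ) / x) ^ (4/3 : ℝ) = S ^ (7/3 : ℝ) * x ^ (-(4/3) : ℝ) := by
      rw [Real.div_rpow (by positivity) hx.le, ← Real.rpow_mul hS.le, Real.rpow_neg hx.le,
        div_eq_mul_inv]
      norm_num
    rw [e3, e4]
    have h3 : cc * x ^ (-(4/3) : ℝ) ≤ c1 * (S ^ (7/3 : ℝ) * x ^ (-(4/3) : ℝ)) := by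
      rw [← mul_assoc]
      refine mul_le_mul_of_nonneg_right ?_ (Real.rpow_nonneg hx.le _)
      rw [hcc]; exact min_le_right _ _
    exact mul_le_mul hCC1 (Real.exp_le_exp.mpr (by linarith)) (Real.exp_pos _).le hCC0.le
  · have hd34 : 0 < δ ^ (3/4 : ℝ) := Real.rpow_pos_of_pos hδ _
    have hx0 : 0 < x := lt_of_lt_of_le (by positivity) hx1
    obtain ⟨X, hX⟩ : ∃ X : ℝ, X = x ^ (4/3 : ℝ) := ⟨_, rfl⟩
    have hX0 : 0 < X := by rw [hX]; positivity
    have hX1 : X ≤ 1 := by rw [hX]; exact Real.rpow_le_one hx0.le hx2 (by norm_num)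
    have hXδ : 2 * δ ≤ η * X := by
      have h1 : ((2 / η) ^ (3/4 : ℝ) * δ ^ (3/4 : ℝ)) ^ (4/3 : ℝ) ≤ X := by
        rw [hX]
        exact Real.rpow_le_rpow (by positivity)
          ((mul_le_mul_of_nonneg_right hCC3 hd34.le).trans hx1) (by norm_num)
      rw [← Real.mul_rpow (by positivity) hδ.le, ← Real.rpow_mul (by positivity)] at h1
      norm_num at h1
      rw [div_mul_eq_mul_div, div_le_iff₀ hη0] at h1
      linarith
    obtain ⟨b, hb⟩ : ∃ b : ℕ, b = ⌊η * X / δ⌋₊ := ⟨_, rfl⟩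
    have hq2 : 2 ≤ η * X / δ := by rw [le_div_iff₀ hδ]; exact hXδ
    have hbu : (b : ℝ) ≤ η * X / δ := by rw [hb]; exact Nat.floor_le (by positivity)
    have hbl : η * X / δ / 2 ≤ b := by
      have h1 : η * X / δ < b + 1 := by rw [hb]; exact Nat.lt_floor_add_one _
      linarith
    have hb1' : (1 : ℝ) ≤ b := by linarith
    have hb1 : 1 ≤ b := by exact_mod_cast hb1'
    have hb0 : (0 : ℝ) < b := by linarith
    have hbn : (b : ℝ) ≤ n := by
      refine hbu.trans ?_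
      rw [hn]
      refine div_le_div_of_nonneg_right ?_ hδ.le
      nlinarith
    have hbρ : (b : ℝ) ≤ ρ / δ := by
      refine hbu.trans (div_le_div_of_nonneg_right ?_ hδ.le)
      nlinarith
    obtain ⟨K, hK⟩ : ∃ K : ℕ, K = ⌈2 * n / b⌉₊ := ⟨_, rfl⟩
    have hK1 : 2 * n / b ≤ K := by rw [hK]; exact Nat.le_ceil _
    have hK2' : (K : ℝ) ≤ 3 * n / b := by
      have h1 : (K : ℝ) < 2 * n / b + 1 := by rw [hK]; exact Nat.ceil_lt_add_one (by positivity)
      have h2 : 1 ≤ n / b := by rw [one_le_div hb0]; exact hbn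
      have e : 3 * n / b = 2 * n / b + n / b := by ring
      linarith
    have hbK : 2 * n ≤ b * K := by
      rw [div_le_iff₀ hb0] at hK1; linarith
    have hK01 : 1 ≤ K := by
      have h1 : (0 : ℝ) < 2 * n / b := by positivity
      have h2 : (0 : ℝ) < K := by linarith
      have h3 : 0 < K := by exact_mod_cast h2
      omega
    obtain ⟨g1, g2, g3, g4, g5, g6⟩ := hgeo δ b hδ d2 hbρ
    have hw := hsh'.w_le
    have hh := hsh'.h_le
    have hl := hD.l_le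
    have hr := hD.le_r
    have hln := hD.l_neg
    have hrp := hD.r_pos
    have ht : |((R.dm δ).t : ℝ)| ≤ n := by
      rw [abs_le]
      have a1 : ((R.dm δ).l : ℝ) ≤ (R.dm δ).t := by exact_mod_cast hl
      have a2 : ((R.dm δ).t : ℝ) ≤ (R.dm δ).r := by exact_mod_cast hr
      have a3 : ((R.dm δ).l : ℝ) < 0 := by exact_mod_cast hln
      have a4 : (0 : ℝ) < (R.dm δ).r := by exact_mod_cast hrp
      push_cast at hw
      constructor <;> linarith
    have k1 : (R.dm δ).h + 1 ≤ (b : ℤ) * K := by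
      have : (((R.dm δ).h + 1 : ℤ) : ℝ) ≤ (((b : ℤ) * K : ℤ) : ℝ) := by push_cast; linarith
      exact_mod_cast this
    have k2 : |(R.dm δ).t| + b ≤ (b : ℤ) * K := by
      have : ((|(R.dm δ).t| + b : ℤ) : ℝ) ≤ (((b : ℤ) * K : ℤ) : ℝ) := by
        push_cast; linarith
      exact_mod_cast this
    have key := hlow (R.dm δ) b K hD hb1 hK01 g1 g2 g3 g4 g5 k1 k2 g6
    refine le_trans (Real.exp_le_exp.mpr (neg_le_neg ?_)) (key.trans (Pr_mono two_ok fun F _ hF => ?_))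
    · -- the exponent
      have h1 : (K : ℝ) ≤ 6 * S / η * X⁻¹ := by
        refine hK2'.trans ?_
        have h2 : 3 * n / b ≤ 3 * n / (η * X / δ / 2) :=
          div_le_div_of_nonneg_left (by positivity) (by positivity) hbl
        refine h2.trans (le_of_eq ?_)
        rw [hn]
        field_simp
        norm_num
      have h2 : x ^ (-(4/3) : ℝ) = X⁻¹ := by rw [hX, Real.rpow_neg hx0.le]
      rw [h2]
      have h3 : 0 < X⁻¹ := by positivity
      calc K2 * K ≤ K2 * (6 * S / η * X⁻¹) := mul_le_mul_of_nonneg_left h1 hK2.le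
        _ = K2 * (6 * S / η) * X⁻¹ := by ring
        _ ≤ CC * X⁻¹ := mul_le_mul_of_nonneg_right hCC2 h3.le
    · -- the duration
      rw [htime]
      refine hF.trans ?_
      have h1 : θ * K * (b : ℝ) ^ (7/4 : ℝ) ≤ 3 * θ * n * (b : ℝ) ^ (3/4 : ℝ) := by
        have e : (b : ℝ) ^ (7/4 : ℝ) = b * (b : ℝ) ^ (3/4 : ℝ) := by
          rw [show (7/4 : ℝ) = 1 + 3/4 by norm_num, Real.rpow_add hb0, Real.rpow_one]
        rw [e]
        have h2 : (K : ℝ) * b ≤ 3 * n := by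
          rw [le_div_iff₀ hb0] at hK2'; exact hK2'
        have h3 : 0 ≤ (b : ℝ) ^ (3/4 : ℝ) := by positivity
        calc θ * K * (b * (b : ℝ) ^ (3/4 : ℝ)) = θ * (K * b) * (b : ℝ) ^ (3/4 : ℝ) := by ring
          _ ≤ θ * (3 * n) * (b : ℝ) ^ (3/4 : ℝ) :=
            mul_le_mul_of_nonneg_right (mul_le_mul_of_nonneg_left h2 hθ.le) h3
          _ = _ := by ring
      refine h1.trans ?_
      have h2 : (b : ℝ) ^ (3/4 : ℝ) ≤ η ^ (3/4 : ℝ) * x * δ ^ (-(3/4) : ℝ) := by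
        calc (b : ℝ) ^ (3/4 : ℝ) ≤ (η * X / δ) ^ (3/4 : ℝ) :=
              Real.rpow_le_rpow hb0.le hbu (by norm_num)
          _ = η ^ (3/4 : ℝ) * X ^ (3/4 : ℝ) / δ ^ (3/4 : ℝ) := by
            rw [Real.div_rpow (by positivity) hδ.le, Real.mul_rpow hη0.le hX0.le]
          _ = η ^ (3/4 : ℝ) * x * δ ^ (-(3/4) : ℝ) := by
            rw [hX, ← Real.rpow_mul hx0.le, Real.rpow_neg hδ.le, div_eq_mul_inv]
            norm_num
      have h3 : δ ^ (-(7/4) : ℝ) = δ⁻¹ * δ ^ (-(3/4) : ℝ) := by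
        rw [← Real.rpow_neg_one, ← Real.rpow_add hδ]; norm_num
      calc 3 * θ * n * (b : ℝ) ^ (3/4 : ℝ) ≤
            3 * θ * n * (η ^ (3/4 : ℝ) * x * δ ^ (-(3/4) : ℝ)) :=
            mul_le_mul_of_nonneg_left h2 (by positivity)
        _ = (3 * θ * S * η ^ (3/4 : ℝ)) * (x * δ ^ (-(7/4) : ℝ)) := by
            rw [h3, hn]; ring
        _ ≤ 1 * (x * δ ^ (-(7/4) : ℝ)) :=
            mul_le_mul_of_nonneg_right hη4 (by positivity)
        _ = _ := one_mul _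

/-- the weak limits -/
theorem final_lim {R : Rect} {c C δ0 : ℝ} (hδ0 : 0 < δ0)
    (h : ∀ δ : ℝ, 0 < δ → δ ≤ δ0 →
      (∀ x : ℝ, 0 < x → R.prob δ (fun F => R.time δ F ≤ x) ≤
        C * Real.exp (-(c * x ^ (-(4/3) : ℝ)))) ∧
      ∀ x : ℝ, C * δ ^ (3/4 : ℝ) ≤ x → x ≤ 1 →
        Real.exp (-(C * x ^ (-(4/3) : ℝ))) ≤ R.prob δ (fun F => R.time δ F ≤ x))
    {δ : ℕ → ℝ} (hδ : ∀ i, 0 < δ i) (hlim : Tendsto δ atTop (𝓝 0))
    {μ : ProbabilityMeasure X} (hμ : Tendsto (fun i => R.law (δ i)) atTop (𝓝 μ))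
    {x : ℝ} (hx : 0 < x) :
    (x ≤ 1 → ENNReal.ofReal (Real.exp (-(C * x ^ (-(4/3) : ℝ)))) ≤
      (μ : Measure X) {p | p.2 ≤ x}) ∧
      (μ : Measure X) {p | p.2 ≤ x} ≤
        ENNReal.ofReal (C * Real.exp (-(c * 2 ^ (-(4/3) : ℝ) * x ^ (-(4/3) : ℝ)))) := by
  constructor
  · intro hx1
    have hG : IsClosed {p : X | p.2 ≤ x} := isClosed_le continuous_snd continuous_const
    have h1 := ProbabilityMeasure.limsup_measure_closed_le_of_tendsto hμ hG
    refine le_trans ?_ h1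
    have hev : ∀ᶠ i in atTop, C * δ i ^ (3/4 : ℝ) ≤ x := by
      have ht : Tendsto (fun i => C * δ i ^ (3/4 : ℝ)) atTop (𝓝 0) := by
        have h2 : Tendsto (fun y : ℝ => C * y ^ (3/4 : ℝ)) (𝓝 0) (𝓝 (C * 0 ^ (3/4 : ℝ))) :=
          ((Real.continuous_rpow_const (by norm_num)).const_mul C).continuousAt.tendsto
        rw [Real.zero_rpow (by norm_num), mul_zero] at h2
        exact h2.comp hlim
      exact ht.eventually (ge_mem_nhds hx)
    have h2 : ∀ᶠ i in atTop, ENNReal.ofReal (Real.exp (-(C * x ^ (-(4/3) : ℝ)))) ≤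
        (R.law (δ i) : Measure X) {p : X | p.2 ≤ x} := by
      filter_upwards [hlim.eventually (ge_mem_nhds hδ0), hev] with i hi hi2
      rw [R.law_apply (δ i) hG.measurableSet]
      exact ENNReal.ofReal_le_ofReal ((h (δ i) (hδ i) hi).2 x hi2 hx1)
    calc ENNReal.ofReal (Real.exp (-(C * x ^ (-(4/3) : ℝ)))) =
          limsup (fun _ : ℕ => ENNReal.ofReal (Real.exp (-(C * x ^ (-(4/3) : ℝ))))) atTop :=
            (limsup_const _).symm
      _ ≤ _ := limsup_le_limsup h2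
  · have hG : IsOpen {p : X | p.2 < 2 * x} := isOpen_lt continuous_snd continuous_const
    have h1 := ProbabilityMeasure.le_liminf_measure_open_of_tendsto hμ hG
    have h3 : (μ : Measure X) {p | p.2 ≤ x} ≤ (μ : Measure X) {p | p.2 < 2 * x} :=
      measure_mono fun p hp => by
        simp only [Set.mem_ofPred_eq] at hp ⊢
        linarith
    refine h3.trans (h1.trans ?_)
    have h2 : ∀ᶠ i in atTop, (R.law (δ i) : Measure X) {p : X | p.2 < 2 * x} ≤
        ENNReal.ofReal (C * Real.exp (-(c * 2 ^ (-(4/3) : ℝ) * x ^ (-(4/3) : ℝ)))) := by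
      filter_upwards [hlim.eventually (ge_mem_nhds hδ0)] with i hi
      rw [R.law_apply (δ i) hG.measurableSet]
      refine ENNReal.ofReal_le_ofReal ?_
      have h4 := (h (δ i) (hδ i) hi).1 (2 * x) (by positivity)
      have e : c * (2 * x) ^ (-(4/3) : ℝ) = c * 2 ^ (-(4/3) : ℝ) * x ^ (-(4/3) : ℝ) := by
        rw [Real.mul_rpow (by norm_num) hx.le]; ring
      rw [e] at h4
      refine le_trans ?_ h4
      refine Pr_mono two_ok fun F _ hF => ?_
      exact le_of_lt hF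
    calc liminf (fun i => (R.law (δ i) : Measure X) {p : X | p.2 < 2 * x}) atTop ≤
          liminf (fun _ : ℕ => ENNReal.ofReal
            (C * Real.exp (-(c * 2 ^ (-(4/3) : ℝ) * x ^ (-(4/3) : ℝ))))) atTop :=
            liminf_le_liminf h2
      _ = _ := liminf_const _

end Pool.Agent.L5helper97.DL
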