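import Pool.Agent.H974R2.Cross

/-!
Crossing a bent strip: a path from one side of a bent strip to the other one crosses one of its
three straight parts.
-/

set_option autoImplicit false

namespace Pool.Agent.L5helper97.DL

open H974

/-- the first exit from a set -/
theorem exit {G : Set Edg} {u v : Vtx} (h : Reach G u v) {S : Vtx → Prop} (hu : S u) (hv : ¬ S v) :
    ∃ w w' : Vtx, S w ∧ ¬ S w' ∧ Reach (G ∩ {e | S (src e) ∧ S (tgt e)}) u w ∧ Adj G w w' := by
  have key : ∀ w, Reach G u w → (S w ∧ Reach (G ∩ {e | S (src e) ∧ S (tgt e)}) u w) ∨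
      ∃ w w' : Vtx, S w ∧ ¬ S w' ∧ Reach (G ∩ {e | S (src e) ∧ S (tgt e)}) u w ∧ Adj G w w' := by
    intro w hw
    induction hw with
    | refl => exact Or.inl ⟨hu, Reach.refl _ _⟩
    | @tail w w' _ hs ih =>
      rcases ih with ⟨h1, h2⟩ | ih
      · by_cases h3 : S w'
        · left
          refine ⟨h3, h2.trans ?_⟩
          obtain ⟨e, he, hor⟩ := hs
          refine Adj.reach ⟨e, ⟨he, ?_⟩, hor⟩
          rcases hor with ⟨h4, h5⟩ | ⟨h4, h5⟩
          · exact ⟨by rw [h4]; exact h1, by rw [h5]; exact h3⟩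
          · exact ⟨by rw [h4]; exact h3, by rw [h5]; exact h1⟩
        · right
          exact ⟨w, w', h1, h3, h2, hs⟩
      · exact Or.inr ih
  rcases key v h with h1 | h1
  · exact absurd h1.1 hv
  · exact h1

/-- the last edge added -/
theorem reach_last {G H : Set Edg} {u w w' : Vtx} (h : Reach (G ∩ H) u w) (h' : Adj G w w') :
    ∃ e ∈ G, ((src e = w ∧ tgt e = w') ∨ (src e = w' ∧ tgt e = w)) ∧
      Reach ((G ∩ H) ∪ {e}) u w' := by
  obtain ⟨e, he, hor⟩ := h'
  refine ⟨e, he, hor, (h.mono Set.subset_union_left).trans ?_⟩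
  exact Adj.reach ⟨e, Or.inr rfl, hor⟩

/-- The strip on the left of the corridor (first `x1 ≤ x ≤ x2`, `y > y1`, then `y1 ≤ y ≤ y2`, then
`x0 ≤ x ≤ x3`, `y < y2`). -/
theorem topo {G : Set Edg} {x0 x1 x2 x3 y1 y2 c0 d0 : ℤ} (h03 : x0 + 1 < x3) (h31 : x3 ≤ x1)
    (h12 : x1 < x2) (hy : y1 + 1 < y2)
    (hrow : ∀ e ∈ G, (src e).1 < x2 → (tgt e).2 ≤ d0)
    (hrow' : ∀ e ∈ G, (src e).1 < x3 → c0 ≤ (src e).2)
    (hB1 : ∀ y y', (y1 + 1 ≤ y ∧ y ≤ d0) → (y1 + 1 ≤ y' ∧ y' ≤ d0) →
      ¬ Reach (G ∩ ↑(LRE x1 x2 (y1 + 1) d0)) (x1, y) (x2, y'))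
    (hB2 : ∀ x x', (x0 + 1 ≤ x ∧ x ≤ x2 - 1) → (x0 + 1 ≤ x' ∧ x' ≤ x2 - 1) →
      ¬ Reach (G ∩ ↑(TBE (x0 + 1) (x2 - 1) y1 y2)) (x, y1) (x', y2))
    (hB3 : ∀ y y', (c0 ≤ y ∧ y ≤ y2 - 1) → (c0 ≤ y' ∧ y' ≤ y2 - 1) →
      ¬ Reach (G ∩ ↑(LRE x0 x3 c0 (y2 - 1))) (x0, y) (x3, y'))
    {u v : Vtx} (h : Reach G u v) (hu : (u.1 ≤ x1 ∧ y2 ≤ u.2) ∨ u.1 ≤ x0)
    (hv : x2 ≤ v.1 ∨ (v.2 ≤ y1 ∧ x3 ≤ v.1)) : False := by
  obtain ⟨w, w', hw, hw', hr, ha⟩ := exit h
    (S := fun z => z.1 < x2 ∧ (z.2 ≤ y1 → z.1 < x3))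
    (by omega) (by omega)
  obtain ⟨e, he, hor, hr2⟩ := reach_last hr ha
  obtain ⟨w1, w2⟩ := w
  obtain ⟨w1', w2'⟩ := w'
  obtain ⟨u1, u2⟩ := u
  simp only at hw hw' hu
  by_cases hα : x2 ≤ w1'
  · -- the path leaves through the right side
    obtain ⟨y, y', g1, g2, g3, -⟩ := sub_LR (a := x1) (b := x2) (c := y1 + 1) (d := d0) h12
      (by
        intro x y h1 h2 h3
        rcases h1 with ⟨h1, h4, h5⟩ | h1
        · have h6 := hrow _ h1 (by simp only [src_mk]; omega)
          simp only [src_mk, tgt_true] at h4 h5 h6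
          omega
        · rw [Set.mem_singleton_iff] at h1
          rw [← h1] at he hor
          have h6 := hrow _ he (by simp only [src_mk]; omega)
          simp only [src_mk, tgt_true, Prod.mk.injEq] at hor h6
          omega)
      (by
        intro x y h1 h2 h3
        rcases h1 with ⟨h1, h4, h5⟩ | h1
        · have h6 := hrow _ h1 (by simp only [src_mk]; omega)
          simp only [src_mk, tgt_false] at h4 h5 h6
          omega
        · rw [Set.mem_singleton_iff] at h1
          rw [← h1] at he hor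
          have h6 := hrow _ he (by simp only [src_mk]; omega)
          simp only [src_mk, tgt_false, Prod.mk.injEq] at hor h6
          omega) hr2 (by simp only; omega) (by simp only; omega)
    refine hB1 y y' g1 g2 (g3.mono ?_)
    rintro e' ⟨h1, h2⟩
    rcases h1 with h1 | h1
    · exact ⟨h1.1, h2⟩
    · rw [Set.mem_singleton_iff] at h1
      exact ⟨h1 ▸ he, h2⟩
  · -- the path leaves through the lower side
    have hJ : (x0 < w1 ∧ w2 < y2) := by
      obtain ⟨ex, ey, _ | _⟩ := e <;>
      · simp only [src_mk, tgt_true, tgt_false, Prod.mk.injEq] at hor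
        omega
    obtain ⟨z, z', hz, hz', hq, hb⟩ := exit hr.symm (S := fun z => x0 < z.1 ∧ z.2 < y2) hJ
      (by simp only; omega)
    obtain ⟨e2, he2, hor2, hr3⟩ := reach_last hq hb
    obtain ⟨z1, z2⟩ := z
    obtain ⟨z1', z2'⟩ := z'
    simp only at hz hz'
    have hr4 : Reach ((((G ∩ {e | ((src e).1 < x2 ∧ ((src e).2 ≤ y1 → (src e).1 < x3)) ∧
        ((tgt e).1 < x2 ∧ ((tgt e).2 ≤ y1 → (tgt e).1 < x3))}) ∩
        {e | (x0 < (src e).1 ∧ (src e).2 < y2) ∧ x0 < (tgt e).1 ∧ (tgt e).2 < y2}) ∪ {e2}) ∪ {e})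
        (w1', w2') (z1', z2') := by
      refine Reach.trans (Adj.reach ⟨e, Or.inr rfl, ?_⟩) (hr3.mono Set.subset_union_left)
      rcases hor with h1 | h1
      · exact Or.inr h1
      · exact Or.inl h1
    by_cases ha2 : y2 ≤ z2'
    · obtain ⟨x, x', g1, g2, g3, -⟩ := sub_TB (a := x0 + 1) (b := x2 - 1) (c := y1) (d := y2)
        (by omega)
        (by
          intro x y h1 h2 h3
          rcases h1 with (⟨⟨h1, h4⟩, h5⟩ | h1) | h1
          · simp only [Set.mem_ofPred_eq, src_mk, tgt_false] at h4 h5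
            omega
          · rw [Set.mem_singleton_iff] at h1
            rw [← h1] at he2 hor2
            have h6 := he2.2
            simp only [Set.mem_ofPred_eq, src_mk, tgt_false, Prod.mk.injEq] at hor2 h6
            omega
          · rw [Set.mem_singleton_iff] at h1
            rw [← h1] at he hor
            simp only [src_mk, tgt_false, Prod.mk.injEq] at hor
            omega)
        (by
          intro x y h1 h2 h3
          rcases h1 with (⟨⟨h1, h4⟩, h5⟩ | h1) | h1
          · simp only [Set.mem_ofPred_eq, src_mk, tgt_true] at h4 h5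
            omega
          · rw [Set.mem_singleton_iff] at h1
            rw [← h1] at he2 hor2
            have h6 := he2.2
            simp only [Set.mem_ofPred_eq, src_mk, tgt_true, Prod.mk.injEq] at hor2 h6
            omega
          · rw [Set.mem_singleton_iff] at h1
            rw [← h1] at he hor
            simp only [src_mk, tgt_true, Prod.mk.injEq] at hor
            omega) hr4 (by simp only; omega) (by simp only; omega)
      refine hB2 x x' g1 g2 (g3.mono ?_)
      rintro e' ⟨h1, h2⟩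
      rcases h1 with (⟨⟨h1, -⟩, -⟩ | h1) | h1
      · exact ⟨h1, h2⟩
      · rw [Set.mem_singleton_iff] at h1
        exact ⟨h1 ▸ he2.1, h2⟩
      · rw [Set.mem_singleton_iff] at h1
        exact ⟨h1 ▸ he, h2⟩
    · obtain ⟨y, y', g1, g2, g3, -⟩ := sub_LR (a := x0) (b := x3) (c := c0) (d := y2 - 1)
        (by omega)
        (by
          intro x y h1 h2 h3
          rcases h1 with (⟨⟨h1, h4⟩, h5⟩ | h1) | h1
          · have h7 := hrow' _ h1 (by simp only [src_mk]; omega)
            simp only [Set.mem_ofPred_eq, src_mk, tgt_true] at h4 h5 h7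
            omega
          · rw [Set.mem_singleton_iff] at h1
            rw [← h1] at he2 hor2
            have h6 := he2.2
            have h7 := hrow' _ he2.1 (by simp only [src_mk]; omega)
            simp only [Set.mem_ofPred_eq, src_mk, tgt_true, Prod.mk.injEq] at hor2 h6 h7
            omega
          · rw [Set.mem_singleton_iff] at h1
            rw [← h1] at he hor
            have h7 := hrow' _ he (by simp only [src_mk]; omega)
            simp only [src_mk, tgt_true, Prod.mk.injEq] at hor h7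
            omega)
        (by
          intro x y h1 h2 h3
          rcases h1 with (⟨⟨h1, h4⟩, h5⟩ | h1) | h1
          · have h7 := hrow' _ h1 (by simp only [src_mk]; omega)
            simp only [Set.mem_ofPred_eq, src_mk, tgt_false] at h4 h5 h7
            omega
          · rw [Set.mem_singleton_iff] at h1
            rw [← h1] at he2 hor2
            have h6 := he2.2
            have h7 := hrow' _ he2.1 (by simp only [src_mk]; omega)
            simp only [Set.mem_ofPred_eq, src_mk, tgt_false, Prod.mk.injEq] at hor2 h6 h7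
            omega
          · rw [Set.mem_singleton_iff] at h1
            rw [← h1] at he hor
            have h7 := hrow' _ he (by simp only [src_mk]; omega)
            simp only [src_mk, tgt_false, Prod.mk.injEq] at hor h7
            omega) hr4.symm (by simp only; omega) (by simp only; omega)
      refine hB3 y y' g1 g2 (g3.mono ?_)
      rintro e' ⟨h1, h2⟩
      rcases h1 with (⟨⟨h1, -⟩, -⟩ | h1) | h1
      · exact ⟨h1, h2⟩
      · rw [Set.mem_singleton_iff] at h1
        exact ⟨h1 ▸ he2.1, h2⟩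
      · rw [Set.mem_singleton_iff] at h1
        exact ⟨h1 ▸ he, h2⟩

/-- The mirror image. -/
theorem topoR {G : Set Edg} {x0 x1 x2 x3 y1 y2 c0 d0 : ℤ} (h03 : x3 + 1 < x0) (h31 : x1 ≤ x3)
    (h12 : x2 < x1) (hy : y1 + 1 < y2)
    (hrow : ∀ e ∈ G, (tgt e).2 ≤ d0) (hrow' : ∀ e ∈ G, c0 ≤ (src e).2)
    (hB1 : ∀ y y', (y1 + 1 ≤ y ∧ y ≤ d0) → (y1 + 1 ≤ y' ∧ y' ≤ d0) →
      ¬ Reach (G ∩ ↑(LRE x2 x1 (y1 + 1) d0)) (x2, y) (x1, y'))
    (hB2 : ∀ x x', (x2 + 1 ≤ x ∧ x ≤ x0 - 1) → (x2 + 1 ≤ x' ∧ x' ≤ x0 - 1) →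
      ¬ Reach (G ∩ ↑(TBE (x2 + 1) (x0 - 1) y1 y2)) (x, y1) (x', y2))
    (hB3 : ∀ y y', (c0 ≤ y ∧ y ≤ y2 - 1) → (c0 ≤ y' ∧ y' ≤ y2 - 1) →
      ¬ Reach (G ∩ ↑(LRE x3 x0 c0 (y2 - 1))) (x3, y) (x0, y'))
    {u v : Vtx} (h : Reach G u v) (hu : (x1 ≤ u.1 ∧ y2 ≤ u.2) ∨ x0 ≤ u.1)
    (hv : v.1 ≤ x2 ∨ (v.2 ≤ y1 ∧ v.1 ≤ x3)) : False := by
  obtain ⟨w, w', hw, hw', hr, ha⟩ := exit h
    (S := fun z => x2 < z.1 ∧ (z.2 ≤ y1 → x3 < z.1))
    (by omega) (by omega)
  obtain ⟨e, he, hor, hr2⟩ := reach_last hr ha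
  obtain ⟨w1, w2⟩ := w
  obtain ⟨w1', w2'⟩ := w'
  obtain ⟨u1, u2⟩ := u
  simp only at hw hw' hu
  by_cases hα : w1' ≤ x2
  · -- the path leaves through the left side
    obtain ⟨y, y', g1, g2, g3, -⟩ := sub_LR (a := x2) (b := x1) (c := y1 + 1) (d := d0) h12
      (by
        intro x y h1 h2 h3
        rcases h1 with ⟨h1, h4, h5⟩ | h1
        · have h6 := hrow _ h1
          simp only [src_mk, tgt_true] at h4 h5 h6
          omega
        · rw [Set.mem_singleton_iff] at h1
          rw [← h1] at he hor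
          have h6 := hrow _ he
          simp only [src_mk, tgt_true, Prod.mk.injEq] at hor h6
          omega)
      (by
        intro x y h1 h2 h3
        rcases h1 with ⟨h1, h4, h5⟩ | h1
        · have h6 := hrow _ h1
          simp only [src_mk, tgt_false] at h4 h5 h6
          omega
        · rw [Set.mem_singleton_iff] at h1
          rw [← h1] at he hor
          have h6 := hrow _ he
          simp only [src_mk, tgt_false, Prod.mk.injEq] at hor h6
          omega) hr2.symm (by simp only; omega) (by simp only; omega)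
    refine hB1 y y' g1 g2 (g3.mono ?_)
    rintro e' ⟨h1, h2⟩
    rcases h1 with h1 | h1
    · exact ⟨h1.1, h2⟩
    · rw [Set.mem_singleton_iff] at h1
      exact ⟨h1 ▸ he, h2⟩
  · -- the path leaves through the lower side
    have hJ : (w1 < x0 ∧ w2 < y2) := by
      obtain ⟨ex, ey, _ | _⟩ := e <;>
      · simp only [src_mk, tgt_true, tgt_false, Prod.mk.injEq] at hor
        omega
    obtain ⟨z, z', hz, hz', hq, hb⟩ := exit hr.symm (S := fun z => z.1 < x0 ∧ z.2 < y2) hJ
      (by simp only; omega)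
    obtain ⟨e2, he2, hor2, hr3⟩ := reach_last hq hb
    obtain ⟨z1, z2⟩ := z
    obtain ⟨z1', z2'⟩ := z'
    simp only at hz hz'
    have hr4 : Reach ((((G ∩ {e | (x2 < (src e).1 ∧ ((src e).2 ≤ y1 → x3 < (src e).1)) ∧
        (x2 < (tgt e).1 ∧ ((tgt e).2 ≤ y1 → x3 < (tgt e).1))}) ∩
        {e | ((src e).1 < x0 ∧ (src e).2 < y2) ∧ (tgt e).1 < x0 ∧ (tgt e).2 < y2}) ∪ {e2}) ∪ {e})
        (w1', w2') (z1', z2') := by
      refine Reach.trans (Adj.reach ⟨e, Or.inr rfl, ?_⟩) (hr3.mono Set.subset_union_left)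
      rcases hor with h1 | h1
      · exact Or.inr h1
      · exact Or.inl h1
    by_cases ha2 : y2 ≤ z2'
    · obtain ⟨x, x', g1, g2, g3, -⟩ := sub_TB (a := x2 + 1) (b := x0 - 1) (c := y1) (d := y2)
        (by omega)
        (by
          intro x y h1 h2 h3
          rcases h1 with (⟨⟨h1, h4⟩, h5⟩ | h1) | h1
          · simp only [Set.mem_ofPred_eq, src_mk, tgt_false] at h4 h5
            omega
          · rw [Set.mem_singleton_iff] at h1
            rw [← h1] at he2 hor2
            have h6 := he2.2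
            simp only [Set.mem_ofPred_eq, src_mk, tgt_false, Prod.mk.injEq] at hor2 h6
            omega
          · rw [Set.mem_singleton_iff] at h1
            rw [← h1] at he hor
            simp only [src_mk, tgt_false, Prod.mk.injEq] at hor
            omega)
        (by
          intro x y h1 h2 h3
          rcases h1 with (⟨⟨h1, h4⟩, h5⟩ | h1) | h1
          · simp only [Set.mem_ofPred_eq, src_mk, tgt_true] at h4 h5
            omega
          · rw [Set.mem_singleton_iff] at h1
            rw [← h1] at he2 hor2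
            have h6 := he2.2
            simp only [Set.mem_ofPred_eq, src_mk, tgt_true, Prod.mk.injEq] at hor2 h6
            omega
          · rw [Set.mem_singleton_iff] at h1
            rw [← h1] at he hor
            simp only [src_mk, tgt_true, Prod.mk.injEq] at hor
            omega) hr4 (by simp only; omega) (by simp only; omega)
      refine hB2 x x' g1 g2 (g3.mono ?_)
      rintro e' ⟨h1, h2⟩
      rcases h1 with (⟨⟨h1, -⟩, -⟩ | h1) | h1
      · exact ⟨h1, h2⟩
      · rw [Set.mem_singleton_iff] at h1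
        exact ⟨h1 ▸ he2.1, h2⟩
      · rw [Set.mem_singleton_iff] at h1
        exact ⟨h1 ▸ he, h2⟩
    · obtain ⟨y, y', g1, g2, g3, -⟩ := sub_LR (a := x3) (b := x0) (c := c0) (d := y2 - 1)
        (by omega)
        (by
          intro x y h1 h2 h3
          rcases h1 with (⟨⟨h1, h4⟩, h5⟩ | h1) | h1
          · have h7 := hrow' _ h1
            simp only [Set.mem_ofPred_eq, src_mk, tgt_true] at h4 h5 h7
            omega
          · rw [Set.mem_singleton_iff] at h1
            rw [← h1] at he2 hor2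
            have h6 := he2.2
            have h7 := hrow' _ he2.1
            simp only [Set.mem_ofPred_eq, src_mk, tgt_true, Prod.mk.injEq] at hor2 h6 h7
            omega
          · rw [Set.mem_singleton_iff] at h1
            rw [← h1] at he hor
            have h7 := hrow' _ he
            simp only [src_mk, tgt_true, Prod.mk.injEq] at hor h7
            omega)
        (by
          intro x y h1 h2 h3
          rcases h1 with (⟨⟨h1, h4⟩, h5⟩ | h1) | h1
          · have h7 := hrow' _ h1
            simp only [Set.mem_ofPred_eq, src_mk, tgt_false] at h4 h5 h7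
            omega
          · rw [Set.mem_singleton_iff] at h1
            rw [← h1] at he2 hor2
            have h6 := he2.2
            have h7 := hrow' _ he2.1
            simp only [Set.mem_ofPred_eq, src_mk, tgt_false, Prod.mk.injEq] at hor2 h6 h7
            omega
          · rw [Set.mem_singleton_iff] at h1
            rw [← h1] at he hor
            have h7 := hrow' _ he
            simp only [src_mk, tgt_false, Prod.mk.injEq] at hor h7
            omega) hr4 (by simp only; omega) (by simp only; omega)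
      refine hB3 y y' g1 g2 (g3.mono ?_)
      rintro e' ⟨h1, h2⟩
      rcases h1 with (⟨⟨h1, -⟩, -⟩ | h1) | h1
      · exact ⟨h1, h2⟩
      · rw [Set.mem_singleton_iff] at h1
        exact ⟨h1 ▸ he2.1, h2⟩
      · rw [Set.mem_singleton_iff] at h1
        exact ⟨h1 ▸ he, h2⟩

end Pool.Agent.L5helper97.DL
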